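import Pool.Agent.Helper13KM.Main

/-!
# The cone conjecture and products
-/

set_option autoImplicit false

open Submodule

namespace Pool.Agent.Helper13KM

/-- The known properties of a product `X = X₁ × X₂` of two smooth projective varieties such that
`N^1(X) = N^1(X₁) ⊕ N^1(X₂)`, for example if `H^1(X₂, ℚ) = 0`; `i₁`, `i₂` are the pull-backs. -/
structure LIsProduct (X X₁ X₂ : LDatum) (i₁ : (Fin X₁.rho → ℝ) →ₗ[ℝ] (Fin X.rho → ℝ))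
    (i₂ : (Fin X₂.rho → ℝ) →ₗ[ℝ] (Fin X.rho → ℝ)) : Prop where
  int₁ : ∀ x, IsInt x → IsInt (i₁ x)
  int₂ : ∀ x, IsInt x → IsInt (i₂ x)
  sum : ∀ z, ∃ x₁ x₂, z = i₁ x₁ + i₂ x₂
  nef : ∀ x₁ x₂, i₁ x₁ + i₂ x₂ ∈ X.nef ↔ x₁ ∈ X₁.nef ∧ x₂ ∈ X₂.nef
  eff : ∀ x₁ x₂, i₁ x₁ + i₂ x₂ ∈ X.eff ↔ x₁ ∈ X₁.eff ∧ x₂ ∈ X₂.eff
  act : ∀ (φ₁ : X₁.Aut) (φ₂ : X₂.Aut), ∃ φ : X.Aut, ∀ x₁ x₂,
    X.act φ (i₁ x₁ + i₂ x₂) = i₁ (X₁.act φ₁ x₁) + i₂ (X₂.act φ₂ x₂)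

/-- The cone conjecture provides a finite set of generators. -/
lemma weak_of_coneConjecture {Y : LDatum} (h : LConeConjecture Y) :
    ∃ s : Finset (Fin Y.rho → ℝ), (∀ v ∈ s, IsInt v) ∧ (∀ v ∈ s, v ∈ Y.nef ∧ v ∈ Y.eff) ∧
      ∀ x ∈ Y.nef, x ∈ Y.eff → ∃ φ : Y.Aut,
        ∃ y ∈ span NNReal (s : Set (Fin Y.rho → ℝ)), x = Y.act φ y := by
  obtain ⟨P, ⟨s, hsi, rfl⟩, hP, -⟩ := h
  rw [genCone_eq] at hP
  refine ⟨s, hsi, ?_, ?_⟩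
  · intro v hv
    have h1 : v ∈ ⋃ φ : Y.Aut, Y.act φ '' (span NNReal (s : Set (Fin Y.rho → ℝ)) : Set _) := by
      rw [Set.mem_iUnion]
      refine ⟨1, v, subset_span hv, ?_⟩
      rw [map_one]
      rfl
    rw [← hP] at h1
    exact h1
  · intro x h1 h2
    have h3 : x ∈ Y.nef ∩ Y.eff := ⟨h1, h2⟩
    rw [hP, Set.mem_iUnion] at h3
    obtain ⟨φ, y, hy, hxy⟩ := h3
    exact ⟨φ, y, hy, hxy.symm⟩

/-- The weak form implies the cone conjecture. -/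
lemma coneConjecture_of_weak {Y : LDatum} (hY : LIsVariety Y) (s : Finset (Fin Y.rho → ℝ))
    (hsi : ∀ v ∈ s, IsInt v) (hs : ∀ v ∈ s, v ∈ Y.nef ∧ v ∈ Y.eff)
    (hcov : ∀ x ∈ Y.nef, x ∈ Y.eff → ∃ φ : Y.Aut,
      ∃ y ∈ span NNReal (s : Set (Fin Y.rho → ℝ)), x = Y.act φ y) : LConeConjecture Y := by
  obtain ⟨ξ, T, h⟩ := exists_strong hY s hsi hs
    (fun x hx => hcov x (interior_subset hx) (hY.ample_eff hx)) (by
      intro x h1 h2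
      obtain ⟨φ, y, hy, rfl⟩ := hcov x h1 h2
      exact (hY.preserves _ ⟨φ, rfl⟩).map_ratCone
        (span_le_ratCone (fun v hv => ⟨(hs v hv).1, hsi v hv⟩) hy))
  exact h.coneConjecture

/-- Products. -/
theorem coneConjecture_product {X X₁ X₂ : LDatum} {i₁ : (Fin X₁.rho → ℝ) →ₗ[ℝ] (Fin X.rho → ℝ)}
    {i₂ : (Fin X₂.rho → ℝ) →ₗ[ℝ] (Fin X.rho → ℝ)} (hX : LIsVariety X) (hX₁ : LIsVariety X₁)
    (hX₂ : LIsVariety X₂) (hp : LIsProduct X X₁ X₂ i₁ i₂) (h₁ : LConeConjecture X₁)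
    (h₂ : LConeConjecture X₂) : LConeConjecture X := by
  classical
  obtain ⟨s₁, a1, a2, a3⟩ := weak_of_coneConjecture h₁
  obtain ⟨s₂, b1, b2, b3⟩ := weak_of_coneConjecture h₂
  set s : Finset (Fin X.rho → ℝ) := s₁.image i₁ ∪ s₂.image i₂ with hs
  have hmem : ∀ v ∈ s, (∃ w ∈ s₁, v = i₁ w) ∨ ∃ w ∈ s₂, v = i₂ w := by
    intro v hv
    rw [hs, Finset.mem_union, Finset.mem_image, Finset.mem_image] at hv
    rcases hv with ⟨w, hw, rfl⟩ | ⟨w, hw, rfl⟩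
    · exact Or.inl ⟨w, hw, rfl⟩
    · exact Or.inr ⟨w, hw, rfl⟩
  refine coneConjecture_of_weak hX s ?_ ?_ ?_
  · intro v hv
    rcases hmem v hv with ⟨w, hw, rfl⟩ | ⟨w, hw, rfl⟩
    · exact hp.int₁ w (a1 w hw)
    · exact hp.int₂ w (b1 w hw)
  · intro v hv
    rcases hmem v hv with ⟨w, hw, rfl⟩ | ⟨w, hw, rfl⟩
    · have h1 := (hp.nef w 0).2 ⟨(a2 w hw).1, hX₂.nef_cone.1⟩
      have h2 := (hp.eff w 0).2 ⟨(a2 w hw).2, hX₂.eff_cone.1⟩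
      rw [map_zero, add_zero] at h1 h2
      exact ⟨h1, h2⟩
    · have h1 := (hp.nef 0 w).2 ⟨hX₁.nef_cone.1, (b2 w hw).1⟩
      have h2 := (hp.eff 0 w).2 ⟨hX₁.eff_cone.1, (b2 w hw).2⟩
      rw [map_zero, zero_add] at h1 h2
      exact ⟨h1, h2⟩
  · intro z hz hz'
    obtain ⟨x₁, x₂, rfl⟩ := hp.sum z
    obtain ⟨h1, h2⟩ := (hp.nef x₁ x₂).1 hz
    obtain ⟨h3, h4⟩ := (hp.eff x₁ x₂).1 hz'
    obtain ⟨φ₁, y₁, hy₁, rfl⟩ := a3 x₁ h1 h3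
    obtain ⟨φ₂, y₂, hy₂, rfl⟩ := b3 x₂ h2 h4
    obtain ⟨φ, hφ⟩ := hp.act φ₁ φ₂
    have lift : ∀ {ρ : ℕ} (i : (Fin ρ → ℝ) →ₗ[ℝ] (Fin X.rho → ℝ)) (t : Finset (Fin ρ → ℝ))
        (_ : ∀ w ∈ t, i w ∈ s) {y : Fin ρ → ℝ} (_ : y ∈ span NNReal (t : Set (Fin ρ → ℝ))),
        i y ∈ span NNReal (s : Set (Fin X.rho → ℝ)) := by
      intro ρ i t ht y hy
      refine span_induction (p := fun y _ => i y ∈ span NNReal (s : Set (Fin X.rho → ℝ)))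
        ?_ ?_ ?_ ?_ hy
      · exact fun w hw => subset_span (ht w hw)
      · rw [map_zero]
        exact zero_mem _
      · intro x y _ _ h5 h6
        rw [map_add]
        exact add_mem h5 h6
      · intro a x _ h5
        rw [NNReal.smul_def, map_smul]
        exact smul_mem_span a.2 h5
    refine ⟨φ, i₁ y₁ + i₂ y₂, add_mem ?_ ?_, (hφ y₁ y₂).symm⟩
    · exact lift i₁ s₁ (fun w hw => Finset.mem_union_left _ (Finset.mem_image_of_mem _ hw)) hy₁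
    · exact lift i₂ s₂ (fun w hw => Finset.mem_union_right _ (Finset.mem_image_of_mem _ hw)) hy₂

end Pool.Agent.Helper13KM
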