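import Pool.Agent.Helper13KM.Stmt
import Pool.Agent.Helper13KM.Product

/-!
# The statements in terms of linear maps
-/

set_option autoImplicit false

open Submodule

namespace Pool.Agent.Helper13KM

/-- The linear map. -/
def IsLin.toLin {r s : ℕ} {f : (Fin r → ℝ) → (Fin s → ℝ)} (h : IsLin f) :
    (Fin r → ℝ) →ₗ[ℝ] (Fin s → ℝ) where
  toFun := f
  map_add' := h.1
  map_smul' := h.2

variable {Y : Datum}

lemma IsAction.apply_mul (h : IsAction Y) (φ ψ : Y.Aut) (x : Fin Y.rho → ℝ) :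
    Y.act (φ * ψ) x = Y.act φ (Y.act ψ x) := congrFun (h.mul φ ψ) x

lemma IsAction.apply_one (h : IsAction Y) (x : Fin Y.rho → ℝ) : Y.act 1 x = x :=
  congrFun h.one x

/-- The action by linear automorphisms. -/
def IsAction.hom (h : IsAction Y) : Y.Aut →* ((Fin Y.rho → ℝ) ≃ₗ[ℝ] (Fin Y.rho → ℝ)) where
  toFun φ :=
    { toFun := Y.act φ
      map_add' := (h.lin φ).1
      map_smul' := (h.lin φ).2
      invFun := Y.act φ⁻¹
      left_inv := fun x => by rw [← h.apply_mul, inv_mul_cancel, h.apply_one]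
      right_inv := fun x => by rw [← h.apply_mul, mul_inv_cancel, h.apply_one] }
  map_one' := LinearEquiv.ext fun x => h.apply_one x
  map_mul' φ ψ := LinearEquiv.ext fun x => h.apply_mul φ ψ x

lemma IsAction.hom_apply (h : IsAction Y) (φ : Y.Aut) (x : Fin Y.rho → ℝ) :
    h.hom φ x = Y.act φ x := rfl

lemma IsAction.hom_eq_one (h : IsAction Y) {φ : Y.Aut} : h.hom φ = 1 ↔ Y.act φ = id := by
  constructor
  · intro h1
    funext x
    rw [← h.hom_apply, h1]
    rfl
  · intro h1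
    refine LinearEquiv.ext fun x => ?_
    rw [h.hom_apply, h1]
    rfl

/-- The data with linear automorphisms. -/
def IsAction.toL (h : IsAction Y) : LDatum where
  rho := Y.rho
  nef := Y.nef
  eff := Y.eff
  Aut := Y.Aut
  act := h.hom

lemma isRatPolyhedral_iff {r : ℕ} (P : Set (Fin r → ℝ)) :
    IsRatPolyhedral P ↔ IsRationalPolyhedral P := Iff.rfl

lemma coneConjecture_iff (h : IsAction Y) : ConeConjecture Y ↔ LConeConjecture h.toL := by
  refine exists_congr fun P => and_congr Iff.rfl (and_congr Iff.rfl ?_)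
  refine forall_congr' fun φ => imp_congr Iff.rfl ?_
  exact h.hom_eq_one.symm

lemma HasDegree.toL (h : HasDegree Y) : ∃ ξ : (Fin Y.rho → ℝ) →ₗ[ℝ] ℝ, IntFun ξ ∧
    ∀ x ∈ Y.nef, x ≠ 0 → 0 < ξ x := by
  obtain ⟨ξ, hξ⟩ := h
  refine ⟨∑ i, (ξ i : ℝ) • (LinearMap.proj i : (Fin Y.rho → ℝ) →ₗ[ℝ] ℝ), ?_, ?_⟩
  · intro x hx
    choose m hm using hx
    refine ⟨∑ i, ξ i * m i, ?_⟩
    simp only [LinearMap.sum_apply, LinearMap.smul_apply, LinearMap.proj_apply, smul_eq_mul]
    push_cast
    exact Finset.sum_congr rfl fun i _ => by rw [hm i]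
  · intro x hx hx0
    have h1 := hξ x hx hx0
    simp only [LinearMap.sum_apply, LinearMap.smul_apply, LinearMap.proj_apply, smul_eq_mul]
    exact h1

lemma IsVariety.toL (h : IsVariety Y) : LIsVariety h.action.toL where
  nef_cone := h.nef_cone
  nef_closed := h.nef_closed
  eff_cone := h.eff_cone
  ample := h.ample
  ample_eff := h.ample_eff
  degree := h.degree.toL
  act_int := h.action.int
  act_nef := h.action.nef
  act_eff := h.action.eff
  kernel := by
    obtain ⟨A, h1, h2, R, h3, h4⟩ := h.kernel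
    refine ⟨A, h1, fun a ha => h.action.hom_eq_one.2 (h2 a ha), R, h3, fun φ hφ => ?_⟩
    exact h4 φ (h.action.hom_eq_one.1 hφ)

lemma IsGaloisCover.toL {Y' Y : Datum} {G : Subgroup Y'.Aut}
    {p : (Fin Y.rho → ℝ) → (Fin Y'.rho → ℝ)} (h : IsGaloisCover Y' Y G p) (h' : IsAction Y')
    (h'' : IsAction Y) : LIsGaloisCover h'.toL h''.toL G h.lin.toLin where
  finite := h.finite
  injective := h.injective
  invariant := h.invariant
  norm := h.norm
  nef := h.nef
  eff := h.eff
  descend := h.descend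

lemma IsProduct.toL {X X₁ X₂ : Datum} {i₁ : (Fin X₁.rho → ℝ) → (Fin X.rho → ℝ)}
    {i₂ : (Fin X₂.rho → ℝ) → (Fin X.rho → ℝ)} (h : IsProduct X X₁ X₂ i₁ i₂) (hX : IsAction X)
    (hX₁ : IsAction X₁) (hX₂ : IsAction X₂) :
    LIsProduct hX.toL hX₁.toL hX₂.toL h.lin₁.toLin h.lin₂.toLin where
  int₁ := h.int₁
  int₂ := h.int₂
  sum := h.sum
  nef := h.nef
  eff := h.eff
  act := h.act

/-- Descent of the cone conjecture along étale Galois coverings. -/
theorem descent {Y' Y : Datum} (hY' : IsVariety Y') (hY : IsVariety Y) {G : Subgroup Y'.Aut}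
    {p : (Fin Y.rho → ℝ) → (Fin Y'.rho → ℝ)} (hp : IsGaloisCover Y' Y G p)
    (h : ConeConjecture Y') : ConeConjecture Y := by
  rw [coneConjecture_iff hY.action]
  exact coneConjecture_descent hY'.toL hY.toL (hp.toL hY'.action hY.action)
    ((coneConjecture_iff hY'.action).1 h)

/-- The cone conjecture for products. -/
theorem product {X X₁ X₂ : Datum} {i₁ : (Fin X₁.rho → ℝ) → (Fin X.rho → ℝ)}
    {i₂ : (Fin X₂.rho → ℝ) → (Fin X.rho → ℝ)} (hX : IsVariety X) (hX₁ : IsVariety X₁)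
    (hX₂ : IsVariety X₂) (hp : IsProduct X X₁ X₂ i₁ i₂) (h₁ : ConeConjecture X₁)
    (h₂ : ConeConjecture X₂) : ConeConjecture X := by
  rw [coneConjecture_iff hX.action]
  exact coneConjecture_product hX.toL hX₁.toL hX₂.toL (hp.toL hX.action hX₁.action hX₂.action)
    ((coneConjecture_iff hX₁.action).1 h₁) ((coneConjecture_iff hX₂.action).1 h₂)

end Pool.Agent.Helper13KM
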