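import Mathlib

/-!
# Rational polyhedral cones
-/

set_option autoImplicit false

open Submodule

namespace Pool.Agent.Helper13KM

variable {r r' : ℕ}

/-- The vector `x` is integral. -/
def IsInt (x : Fin r → ℝ) : Prop := ∀ i, ∃ z : ℤ, x i = z

lemma isInt_zero : IsInt (0 : Fin r → ℝ) := fun _ => ⟨0, by simp⟩

lemma IsInt.add {x y : Fin r → ℝ} (hx : IsInt x) (hy : IsInt y) : IsInt (x + y) := by
  intro i
  obtain ⟨a, ha⟩ := hx i
  obtain ⟨b, hb⟩ := hy i
  exact ⟨a + b, by simp [ha, hb]⟩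

lemma IsInt.zsmul {x : Fin r → ℝ} (hx : IsInt x) (n : ℤ) : IsInt ((n : ℝ) • x) := by
  intro i
  obtain ⟨a, ha⟩ := hx i
  exact ⟨n * a, by simp [ha]⟩

lemma IsInt.nsmul {x : Fin r → ℝ} (hx : IsInt x) (n : ℕ) : IsInt ((n : ℝ) • x) := by
  have := hx.zsmul (n : ℤ)
  rwa [Int.cast_natCast] at this

lemma IsInt.neg {x : Fin r → ℝ} (hx : IsInt x) : IsInt (-x) := by
  have := hx.zsmul (-1)
  simpa using this

lemma IsInt.sub {x y : Fin r → ℝ} (hx : IsInt x) (hy : IsInt y) : IsInt (x - y) := by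
  rw [sub_eq_add_neg]
  exact hx.add hy.neg

lemma IsInt.sum {ι : Type*} (s : Finset ι) {f : ι → Fin r → ℝ} (h : ∀ i ∈ s, IsInt (f i)) :
    IsInt (∑ i ∈ s, f i) := by
  classical
  induction s using Finset.induction_on with
  | empty => simpa using isInt_zero
  | insert a s ha ih =>
    rw [Finset.sum_insert ha]
    exact (h a (Finset.mem_insert_self a s)).add
      (ih fun i hi => h i (Finset.mem_insert_of_mem hi))

lemma isInt_single (i : Fin r) : IsInt (Pi.single i (1 : ℝ)) := by
  intro j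
  rcases eq_or_ne j i with h | h
  · exact ⟨1, by rw [h]; simp⟩
  · exact ⟨0, by simp [h]⟩

/-- `S` is a convex cone (containing `0`). -/
def IsConvexCone {r : ℕ} (S : Set (Fin r → ℝ)) : Prop :=
  0 ∈ S ∧ (∀ x ∈ S, ∀ y ∈ S, x + y ∈ S) ∧ ∀ c : ℝ, 0 ≤ c → ∀ x ∈ S, c • x ∈ S

/-- The linear form `f` is integral. -/
def IntFun (f : (Fin r → ℝ) →ₗ[ℝ] ℝ) : Prop := ∀ x, IsInt x → ∃ z : ℤ, f x = z

lemma IntFun.sub {f g : (Fin r → ℝ) →ₗ[ℝ] ℝ} (hf : IntFun f) (hg : IntFun g) :
    IntFun (f - g) := by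
  intro x hx
  obtain ⟨a, ha⟩ := hf x hx
  obtain ⟨b, hb⟩ := hg x hx
  exact ⟨a - b, by simp [ha, hb]⟩

lemma smul_mem_span {s : Set (Fin r → ℝ)} {c : ℝ} (hc : 0 ≤ c) {x : Fin r → ℝ}
    (hx : x ∈ span NNReal s) : c • x ∈ span NNReal s :=
  (span NNReal s).smul_mem (⟨c, hc⟩ : NNReal) hx

lemma mem_span_iff (s : Finset (Fin r → ℝ)) (x : Fin r → ℝ) :
    x ∈ span NNReal (s : Set (Fin r → ℝ)) ↔
      ∃ c : (Fin r → ℝ) → ℝ, (∀ v ∈ s, 0 ≤ c v) ∧ x = ∑ v ∈ s, c v • v := by
  classical
  rw [mem_span_finset]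
  constructor
  · rintro ⟨f, -, rfl⟩
    exact ⟨fun v => (f v : ℝ), fun v _ => (f v).2, rfl⟩
  · rintro ⟨c, hc, rfl⟩
    refine ⟨fun v => if v ∈ s then (c v).toNNReal else 0, ?_, ?_⟩
    · intro v hv
      by_contra h
      exact hv (if_neg h)
    · refine Finset.sum_congr rfl fun v hv => ?_
      simp only [if_pos hv]
      rw [NNReal.smul_def, Real.coe_toNNReal _ (hc v hv)]

/-- The intersection of a rational polyhedral cone with a rational half space. -/
lemma halfspace (s : Finset (Fin r → ℝ)) (hs : ∀ v ∈ s, IsInt v) (f : (Fin r → ℝ) →ₗ[ℝ] ℝ)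
    (hf : IntFun f) :
    ∃ t : Finset (Fin r → ℝ), (∀ v ∈ t, IsInt v) ∧
      ∀ x, x ∈ span NNReal (t : Set (Fin r → ℝ)) ↔
        x ∈ span NNReal (s : Set (Fin r → ℝ)) ∧ 0 ≤ f x := by
  classical
  set sp := s.filter (fun v => 0 < f v) with hsp
  set sz := s.filter (fun v => f v = 0) with hsz
  set sn := s.filter (fun v => f v < 0) with hsn
  set t : Finset (Fin r → ℝ) := sp ∪ sz ∪ (sp ×ˢ sn).image (fun p => f p.1 • p.2 - f p.2 • p.1)
    with ht
  have hmem : ∀ v ∈ t, v ∈ s ∧ 0 ≤ f v ∨ ∃ a ∈ sp, ∃ b ∈ sn, v = f a • b - f b • a := by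
    intro v hv
    simp only [ht, Finset.mem_union, Finset.mem_image, Finset.mem_product] at hv
    rcases hv with (hv | hv) | ⟨⟨a, b⟩, ⟨ha, hb⟩, rfl⟩
    · rw [hsp, Finset.mem_filter] at hv
      exact Or.inl ⟨hv.1, hv.2.le⟩
    · rw [hsz, Finset.mem_filter] at hv
      exact Or.inl ⟨hv.1, hv.2.ge⟩
    · exact Or.inr ⟨a, ha, b, hb, rfl⟩
  refine ⟨t, ?_, ?_⟩
  · intro v hv
    rcases hmem v hv with ⟨h, -⟩ | ⟨a, ha, b, hb, rfl⟩
    · exact hs v h
    · rw [hsp, Finset.mem_filter] at ha
      rw [hsn, Finset.mem_filter] at hb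
      obtain ⟨m, hm⟩ := hf a (hs a ha.1)
      obtain ⟨n, hn⟩ := hf b (hs b hb.1)
      rw [hm, hn]
      exact ((hs b hb.1).zsmul m).sub ((hs a ha.1).zsmul n)
  · intro x
    constructor
    · intro hx
      refine span_induction (p := fun x _ => x ∈ span NNReal (s : Set (Fin r → ℝ)) ∧ 0 ≤ f x)
        ?_ ?_ ?_ ?_ hx
      · intro v hv
        rcases hmem v hv with ⟨h, h'⟩ | ⟨a, ha, b, hb, rfl⟩
        · exact ⟨subset_span h, h'⟩
        · rw [hsp, Finset.mem_filter] at ha
          rw [hsn, Finset.mem_filter] at hb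
          refine ⟨?_, ?_⟩
          · rw [sub_eq_add_neg, ← neg_smul]
            exact add_mem (smul_mem_span ha.2.le (subset_span hb.1))
              (smul_mem_span (neg_nonneg.2 hb.2.le) (subset_span ha.1))
          · rw [map_sub, map_smul, map_smul, smul_eq_mul, smul_eq_mul, mul_comm, sub_self]
      · exact ⟨zero_mem _, by rw [map_zero]⟩
      · rintro x y - - ⟨h1, h2⟩ ⟨h3, h4⟩
        exact ⟨add_mem h1 h3, by rw [map_add]; exact add_nonneg h2 h4⟩
      · rintro a x - ⟨h1, h2⟩
        refine ⟨smul_mem _ a h1, ?_⟩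
        rw [NNReal.smul_def, map_smul, smul_eq_mul]
        exact mul_nonneg a.2 h2
    · rintro ⟨hx, hfx⟩
      obtain ⟨c, hc, rfl⟩ := (mem_span_iff s x).1 hx
      have hsplit : ∀ g : (Fin r → ℝ) → (Fin r → ℝ), ∑ v ∈ s, g v =
          ∑ v ∈ sp, g v + ∑ v ∈ sz, g v + ∑ v ∈ sn, g v := by
        intro g
        have h1 : s = sp ∪ sz ∪ sn := by
          ext v
          simp only [hsp, hsz, hsn, Finset.mem_union, Finset.mem_filter]
          constructor
          · intro hv
            rcases lt_trichotomy (f v) 0 with h | h | h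
            · exact Or.inr ⟨hv, h⟩
            · exact Or.inl (Or.inr ⟨hv, h⟩)
            · exact Or.inl (Or.inl ⟨hv, h⟩)
          · rintro ((h | h) | h) <;> exact h.1
        have h2 : Disjoint sp sz := by
          rw [Finset.disjoint_left]
          intro v h3 h4
          rw [hsp, Finset.mem_filter] at h3
          rw [hsz, Finset.mem_filter] at h4
          linarith [h3.2, h4.2]
        have h3 : Disjoint (sp ∪ sz) sn := by
          rw [Finset.disjoint_left]
          intro v h4 h5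
          rw [Finset.mem_union, hsp, hsz, Finset.mem_filter, Finset.mem_filter] at h4
          rw [hsn, Finset.mem_filter] at h5
          rcases h4 with h4 | h4 <;> linarith [h4.2, h5.2]
        conv_lhs => rw [h1]
        rw [Finset.sum_union h3, Finset.sum_union h2]
      have hcp : ∀ v ∈ sp, 0 ≤ c v := fun v hv => hc v (Finset.mem_of_mem_filter v hv)
      have hcz : ∀ v ∈ sz, 0 ≤ c v := fun v hv => hc v (Finset.mem_of_mem_filter v hv)
      have hcn : ∀ v ∈ sn, 0 ≤ c v := fun v hv => hc v (Finset.mem_of_mem_filter v hv)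
      set P : ℝ := ∑ v ∈ sp, c v * f v with hP
      set N : ℝ := ∑ v ∈ sn, c v * f v with hN
      have hPN : f (∑ v ∈ s, c v • v) = P + N := by
        rw [hsplit, map_add, map_add, map_sum, map_sum, map_sum]
        have : ∑ v ∈ sz, f (c v • v) = 0 := by
          refine Finset.sum_eq_zero fun v hv => ?_
          rw [hsz, Finset.mem_filter] at hv
          rw [map_smul, hv.2, smul_zero]
        rw [this, add_zero]
        simp only [map_smul, smul_eq_mul, hP, hN]
      rw [hPN] at hfx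
      have hP0 : 0 ≤ P := Finset.sum_nonneg fun v hv =>
        mul_nonneg (hcp v hv) (Finset.mem_filter.1 hv).2.le
      have hN0 : N ≤ 0 := Finset.sum_nonpos fun v hv =>
        mul_nonpos_of_nonneg_of_nonpos (hcn v hv) (Finset.mem_filter.1 hv).2.le
      have hspt : ∀ v ∈ sp, v ∈ span NNReal (t : Set (Fin r → ℝ)) := fun v hv =>
        subset_span (Finset.mem_union_left _ (Finset.mem_union_left _ hv))
      have hszt : ∀ v ∈ sz, v ∈ span NNReal (t : Set (Fin r → ℝ)) := fun v hv =>
        subset_span (Finset.mem_union_left _ (Finset.mem_union_right _ hv))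
      rcases hP0.eq_or_lt with hP1 | hP1
      · -- `P = 0`
        have hN1 : N = 0 := by linarith
        have hz : ∀ v ∈ sn, c v = 0 := by
          intro v hv
          have h1 : ∀ v ∈ sn, 0 ≤ -(c v * f v) := fun v hv =>
            neg_nonneg.2 (mul_nonpos_of_nonneg_of_nonpos (hcn v hv) (Finset.mem_filter.1 hv).2.le)
          have h2 : ∑ v ∈ sn, -(c v * f v) = 0 := by
            rw [Finset.sum_neg_distrib, ← hN, hN1, neg_zero]
          have h3 := (Finset.sum_eq_zero_iff_of_nonneg h1).1 h2 v hv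
          have h4 : f v ≠ 0 := (Finset.mem_filter.1 hv).2.ne
          rcases mul_eq_zero.1 (neg_eq_zero.1 h3) with h5 | h5
          · exact h5
          · exact absurd h5 h4
        rw [hsplit]
        have h5 : ∑ v ∈ sn, c v • v = 0 :=
          Finset.sum_eq_zero fun v hv => by rw [hz v hv, zero_smul]
        rw [h5, add_zero]
        exact add_mem (sum_mem fun v hv => smul_mem_span (hcp v hv) (hspt v hv))
          (sum_mem fun v hv => smul_mem_span (hcz v hv) (hszt v hv))
      · -- `P > 0`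
        have key : P • ∑ v ∈ s, c v • v = P • ∑ v ∈ sz, c v • v + (P + N) • ∑ v ∈ sp, c v • v +
            ∑ v ∈ sp, ∑ w ∈ sn, (c v * c w) • (f v • w - f w • v) := by
          have h1 : ∑ v ∈ sp, ∑ w ∈ sn, (c v * c w) • (f v • w - f w • v) =
              P • ∑ w ∈ sn, c w • w - N • ∑ v ∈ sp, c v • v := by
            rw [hP, hN, Finset.sum_smul, Finset.sum_smul_sum]
            have h2 : ∀ v ∈ sp, ∑ w ∈ sn, (c v * c w) • (f v • w - f w • v) =
                (c v * f v) • ∑ w ∈ sn, c w • w - (∑ w ∈ sn, c w * f w) • (c v • v) := by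
              intro v _
              rw [Finset.smul_sum, Finset.sum_smul, ← Finset.sum_sub_distrib]
              refine Finset.sum_congr rfl fun w _ => ?_
              module
            rw [Finset.sum_congr rfl h2, Finset.sum_sub_distrib]
            congr 1
            rw [Finset.sum_comm]
            exact Finset.sum_congr rfl fun v _ => by rw [Finset.sum_smul]
          rw [hsplit, h1]
          module
        have hmem' : P • ∑ v ∈ s, c v • v ∈ span NNReal (t : Set (Fin r → ℝ)) := by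
          rw [key]
          refine add_mem (add_mem ?_ ?_) ?_
          · exact smul_mem_span hP0
              (sum_mem fun v hv => smul_mem_span (hcz v hv) (hszt v hv))
          · exact smul_mem_span hfx
              (sum_mem fun v hv => smul_mem_span (hcp v hv) (hspt v hv))
          · refine sum_mem fun v hv => sum_mem fun w hw => ?_
            refine smul_mem_span (mul_nonneg (hcp v hv) (hcn w hw)) (subset_span ?_)
            exact Finset.mem_union_right _ (Finset.mem_image.2
              ⟨(v, w), Finset.mem_product.2 ⟨hv, hw⟩, rfl⟩)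
        have h6 := smul_mem_span (inv_nonneg.2 hP0) hmem'
        rwa [smul_smul, inv_mul_cancel₀ hP1.ne', one_smul] at h6

/-- Finitely many half spaces. -/
lemma halfspaces {ι : Type*} (F : Finset ι) (f : ι → (Fin r → ℝ) →ₗ[ℝ] ℝ)
    (hf : ∀ i ∈ F, IntFun (f i)) (s : Finset (Fin r → ℝ)) (hs : ∀ v ∈ s, IsInt v) :
    ∃ t : Finset (Fin r → ℝ), (∀ v ∈ t, IsInt v) ∧
      ∀ x, x ∈ span NNReal (t : Set (Fin r → ℝ)) ↔
        x ∈ span NNReal (s : Set (Fin r → ℝ)) ∧ ∀ i ∈ F, 0 ≤ f i x := by
  classical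
  induction F using Finset.induction_on with
  | empty => exact ⟨s, hs, fun x => by simp⟩
  | insert a F ha ih =>
    obtain ⟨t, h1, h2⟩ := ih fun i hi => hf i (Finset.mem_insert_of_mem hi)
    obtain ⟨u, h3, h4⟩ := halfspace t h1 (f a) (hf a (Finset.mem_insert_self a F))
    refine ⟨u, h3, fun x => ?_⟩
    rw [h4, h2]
    constructor
    · rintro ⟨⟨h5, h6⟩, h7⟩
      refine ⟨h5, fun i hi => ?_⟩
      rcases Finset.mem_insert.1 hi with h | h
      · rwa [h]
      · exact h6 i h
    · rintro ⟨h5, h6⟩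
      exact ⟨⟨h5, fun i hi => h6 i (Finset.mem_insert_of_mem hi)⟩, h6 a (Finset.mem_insert_self a F)⟩

/-- A finitely generated cone is closed if there is a linear form which is positive on the
generators. -/
lemma isClosed_span (s : Finset (Fin r → ℝ)) (ξ : (Fin r → ℝ) →ₗ[ℝ] ℝ)
    (hξ : ∀ v ∈ s, v ≠ 0 → 0 < ξ v) : IsClosed (span NNReal (s : Set (Fin r → ℝ)) : Set (Fin r → ℝ)) := by
  classical
  have hcont : Continuous ξ := LinearMap.continuous_of_finiteDimensional ξ
  rw [← closure_subset_iff_isClosed]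
  intro x hx
  set R : ℝ := ξ x + 1 with hR
  set Q : Set (s → ℝ) := Set.Icc 0 (fun v => if (v : Fin r → ℝ) = 0 then 0 else R / ξ v) with hQ
  have hQc : IsCompact Q := isCompact_Icc
  set Φ : (s → ℝ) → (Fin r → ℝ) := fun c => ∑ v, c v • (v : Fin r → ℝ) with hΦ
  have hΦc : Continuous Φ := by
    rw [hΦ]
    fun_prop
  have hcl : IsClosed (Φ '' Q) := (hQc.image hΦc).isClosed
  have hopen : IsOpen {y | ξ y < R} := isOpen_lt hcont continuous_const
  have hsub : {y | ξ y < R} ∩ (span NNReal (s : Set (Fin r → ℝ)) : Set (Fin r → ℝ)) ⊆ Φ '' Q := by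
    rintro y ⟨hy1, hy2⟩
    obtain ⟨c, hc, rfl⟩ := (mem_span_iff s y).1 hy2
    refine ⟨fun v => if (v : Fin r → ℝ) = 0 then 0 else c v, ⟨?_, ?_⟩, ?_⟩
    · intro v
      simp only [Pi.zero_apply]
      split_ifs
      · exact le_rfl
      · exact hc v v.2
    · intro v
      by_cases h0 : (v : Fin r → ℝ) = 0
      · simp only [if_pos h0, le_refl]
      · simp only [if_neg h0]
        rw [le_div_iff₀ (hξ v v.2 h0)]
        have h1 : ξ (∑ v ∈ s, c v • v) = ∑ v ∈ s, c v * ξ v := by
          rw [map_sum]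
          exact Finset.sum_congr rfl fun v _ => by rw [map_smul, smul_eq_mul]
        have h2 : ∀ w ∈ s, 0 ≤ c w * ξ w := by
          intro w hw
          by_cases hw0 : w = 0
          · rw [hw0, map_zero, mul_zero]
          · exact mul_nonneg (hc w hw) (hξ w hw hw0).le
        have h3 : c v * ξ v ≤ ∑ w ∈ s, c w * ξ w :=
          Finset.single_le_sum (f := fun w => c w * ξ w) h2 v.2
        have h4 : ξ (∑ v ∈ s, c v • v) < R := hy1
        rw [h1] at h4
        exact h3.trans h4.le
    · simp only [hΦ]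
      rw [← Finset.sum_coe_sort s (fun v => c v • v)]
      refine Finset.sum_congr rfl fun v _ => ?_
      by_cases h0 : (v : Fin r → ℝ) = 0
      · simp only [h0, smul_zero]
      · simp only [if_neg h0]
  have h1 : x ∈ closure ({y | ξ y < R} ∩ (span NNReal (s : Set (Fin r → ℝ)) : Set (Fin r → ℝ))) :=
    hopen.inter_closure ⟨by show ξ x < R; rw [hR]; linarith, hx⟩
  have h2 : x ∈ Φ '' Q := (closure_minimal hsub hcl) h1
  obtain ⟨c, hc, rfl⟩ := h2
  refine sum_mem fun v _ => ?_
  exact smul_mem_span (hc.1 v) (subset_span v.2)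

end Pool.Agent.Helper13KM
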