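import Mathlib

/-!
# Finitely many classes of homomorphisms of a finite group
-/

set_option autoImplicit false

namespace Pool.Agent.Helper13KM

variable {Au : Type*} [Group Au]

/-- `A` is a normal abelian divisible subgroup with finite `n`-torsion for all `n`, such as the group of
complex points of an abelian variety. -/
structure IsTorusLike (A : Subgroup Au) : Prop where
  normal : A.Normal
  comm : ∀ a ∈ A, ∀ b ∈ A, a * b = b * a
  div : ∀ n : ℕ, 0 < n → ∀ a ∈ A, ∃ b ∈ A, b ^ n = a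
  tors : ∀ n : ℕ, 0 < n → {a | a ∈ A ∧ a ^ n = 1}.Finite

/-- The cohomology class of the difference of two homomorphisms is killed by the order of the group,
so it is represented by a cocycle with values in the torsion. -/
lemma cocycle {A : Subgroup Au} (hA : IsTorusLike A) (G : Subgroup Au) [Finite G] (φ ψ : Au)
    (h : ∀ g ∈ G, (φ⁻¹ * g * φ) * (ψ⁻¹ * g * ψ)⁻¹ ∈ A) :
    ∃ a ∈ A, ∀ g ∈ G, ((φ * a)⁻¹ * g * (φ * a)) * (ψ⁻¹ * g * ψ)⁻¹ ∈ A ∧
      (((φ * a)⁻¹ * g * (φ * a)) * (ψ⁻¹ * g * ψ)⁻¹) ^ (Nat.card G) = 1 := by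
  classical
  have := Fintype.ofFinite G
  have hnorm := hA.normal
  let _ : CommGroup A :=
    { (inferInstance : Group A) with
      mul_comm := fun a b => Subtype.ext (hA.comm a a.2 b b.2) }
  set c : G → A := fun g => ⟨(φ⁻¹ * g * φ) * (ψ⁻¹ * g * ψ)⁻¹, h g g.2⟩ with hc
  set σ : G → MulAut A := fun g => MulAut.conjNormal (ψ⁻¹ * (g : Au) * ψ) with hσ
  have hcoc : ∀ g g' : G, c (g * g') = c g * σ g (c g') := by
    intro g g'
    apply Subtype.ext
    simp only [hc, hσ, Subgroup.coe_mul, MulAut.conjNormal_apply]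
    group
  set b : A := ∏ g', c g' with hb
  set n := Nat.card G with hn
  have hcard : Fintype.card G = n := by rw [hn, Nat.card_eq_fintype_card]
  have hn0 : 0 < n := Nat.card_pos
  have h1 : ∀ g : G, (c g) ^ n * σ g b = b := by
    intro g
    have h2 : ∏ g', c (g * g') = b := Equiv.prod_comp (Equiv.mulLeft g) c
    have h3 : ∏ g', c (g * g') = ∏ g', (c g * σ g (c g')) :=
      Finset.prod_congr rfl fun g' _ => hcoc g g'
    rw [h2, Finset.prod_mul_distrib, Finset.prod_const, Finset.card_univ, hcard] at h3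
    rw [hb, map_prod, ← hb]
    exact h3.symm
  obtain ⟨a, ha, hab⟩ := hA.div n hn0 b b.2
  refine ⟨a, ha, fun g hg => ?_⟩
  set a' : A := ⟨a, ha⟩ with ha'
  have ha'n : a' ^ n = b := Subtype.ext (by rw [Subgroup.coe_pow]; exact hab)
  have h4 : ((φ * a)⁻¹ * g * (φ * a)) * (ψ⁻¹ * g * ψ)⁻¹ =
      ((a'⁻¹ * c ⟨g, hg⟩ * σ ⟨g, hg⟩ a' : A) : Au) := by
    simp only [hc, hσ, ha', Subgroup.coe_mul, Subgroup.coe_inv, MulAut.conjNormal_apply]
    group
  have h5 : (a'⁻¹ * c ⟨g, hg⟩ * σ ⟨g, hg⟩ a' : A) ^ n = 1 := by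
    rw [mul_pow, mul_pow, inv_pow, ← map_pow, ha'n, mul_assoc, h1, inv_mul_cancel]
  rw [h4]
  refine ⟨Subtype.mem _, ?_⟩
  rw [← Subgroup.coe_pow, h5, Subgroup.coe_one]

/-- Up to the centraliser of the finite group `G` and the kernel of `ρ` there are only finitely many
elements which conjugate `G` into a finite set modulo the kernel. -/
theorem finite_classes {W : Type*} [Group W] (ρ : Au →* W) {A : Subgroup Au} (hA : IsTorusLike A)
    (hAρ : ∀ a ∈ A, ρ a = 1) {R : Set Au} (hR : R.Finite)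
    (hker : ∀ φ, ρ φ = 1 → ∃ a ∈ A, ∃ b ∈ R, φ = a * b) (G : Subgroup Au) [Finite G]
    {S : Set W} (hS : S.Finite) :
    ∃ Φ : Finset Au, ∀ φ, (∀ g ∈ G, ρ (φ⁻¹ * g * φ) ∈ S) →
      ∃ ψ ∈ Φ, ∃ z, (∀ g ∈ G, z * g = g * z) ∧ ρ φ = ρ z * ρ ψ := by
  classical
  -- representatives modulo `A`
  set f : W → Au := fun w => if h : ∃ a, ρ a = w then h.choose else 1 with hf
  have hfρ : ∀ a, ρ (f (ρ a)) = ρ a := by
    intro a
    have h : ∃ a', ρ a' = ρ a := ⟨a, rfl⟩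
    simp only [hf, dif_pos h]
    exact h.choose_spec
  set B : Set Au := (fun p : Au × W => p.1 * f p.2) '' (R ×ˢ S) with hB
  have hBf : B.Finite := (hR.prod hS).image _
  have hBmem : ∀ a, ρ a ∈ S → ∃ b ∈ B, a * b⁻¹ ∈ A := by
    intro a ha
    obtain ⟨a', ha', r, hr, h1⟩ := hker (a * (f (ρ a))⁻¹) (by
      rw [map_mul, map_inv, hfρ, mul_inv_cancel])
    refine ⟨r * f (ρ a), ⟨(r, ρ a), ⟨hr, ha⟩, rfl⟩, ?_⟩
    have h2 : a * (r * f (ρ a))⁻¹ = a' := by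
      rw [mul_inv_rev, ← mul_assoc, h1, mul_assoc, mul_inv_cancel, mul_one]
    rw [h2]
    exact ha'
  have hBfin : Finite B := hBf
  set n := Nat.card G with hn
  have hn0 : 0 < n := Nat.card_pos
  set τ : Set Au := {a | a ∈ A ∧ a ^ n = 1} with hτ
  have hτf : τ.Finite := hA.tors n hn0
  have hτfin : Finite τ := hτf
  -- the choices
  set P : (G → B) → Au → Prop := fun β φ => ∀ g : G, (φ⁻¹ * g * φ) * (β g : Au)⁻¹ ∈ A with hP
  set p : (G → B) → Au := fun β => if h : ∃ φ, P β φ then h.choose else 1 with hp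
  have hpP : ∀ β φ, P β φ → P β (p β) := by
    intro β φ h
    have h' : ∃ φ, P β φ := ⟨φ, h⟩
    simp only [hp, dif_pos h']
    exact h'.choose_spec
  set Q : (G → B) × (G → τ) → Au → Prop := fun q ψ => ∀ g : G,
    ψ⁻¹ * g * ψ = (q.2 g : Au) * ((p q.1)⁻¹ * g * p q.1) with hQ
  set q' : (G → B) × (G → τ) → Au := fun q => if h : ∃ ψ, Q q ψ then h.choose else 1 with hq'
  have hqQ : ∀ q ψ, Q q ψ → Q q (q' q) := by
    intro q ψ h
    have h' : ∃ ψ, Q q ψ := ⟨ψ, h⟩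
    simp only [hq', dif_pos h']
    exact h'.choose_spec
  have hfin : (Set.range q').Finite := Set.finite_range q'
  refine ⟨hfin.toFinset, fun φ hφ => ?_⟩
  have h1 : ∀ g : G, ∃ b : B, (φ⁻¹ * g * φ) * (b : Au)⁻¹ ∈ A := by
    intro g
    obtain ⟨b, hb, h⟩ := hBmem _ (hφ g g.2)
    exact ⟨⟨b, hb⟩, h⟩
  choose β hβ using h1
  have h2 := hpP β φ hβ
  obtain ⟨a, ha, ha'⟩ := cocycle hA G φ (p β) (by
    intro g hg
    have h3 := hβ ⟨g, hg⟩
    have h4 := h2 ⟨g, hg⟩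
    have h5 := A.mul_mem h3 (A.inv_mem h4)
    have h6 : (φ⁻¹ * g * φ) * (β ⟨g, hg⟩ : Au)⁻¹ * ((((p β)⁻¹ * g * p β) *
        (β ⟨g, hg⟩ : Au)⁻¹))⁻¹ = (φ⁻¹ * g * φ) * ((p β)⁻¹ * g * p β)⁻¹ := by group
    rw [← h6]
    exact h5)
  set t : G → τ := fun g => ⟨((φ * a)⁻¹ * g * (φ * a)) * ((p β)⁻¹ * g * p β)⁻¹, ha' g g.2⟩ with ht
  have h3 : Q (β, t) (φ * a) := by
    intro g
    simp only [ht]
    group
  have h4 := hqQ _ _ h3
  refine ⟨q' (β, t), ?_, φ * a * (q' (β, t))⁻¹, ?_, ?_⟩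
  · rw [Set.Finite.mem_toFinset]
    exact ⟨_, rfl⟩
  · intro g hg
    have h5 : (φ * a)⁻¹ * g * (φ * a) = (q' (β, t))⁻¹ * g * q' (β, t) :=
      (h3 ⟨g, hg⟩).trans (h4 ⟨g, hg⟩).symm
    have h6 : g * (φ * a) = (φ * a) * ((q' (β, t))⁻¹ * g * q' (β, t)) := by
      rw [← h5]
      group
    calc φ * a * (q' (β, t))⁻¹ * g = (φ * a) * ((q' (β, t))⁻¹ * g * q' (β, t)) * (q' (β, t))⁻¹ := by
          group
      _ = g * (φ * a) * (q' (β, t))⁻¹ := by rw [← h6]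
      _ = g * (φ * a * (q' (β, t))⁻¹) := by group
  · rw [map_mul, map_mul, hAρ a ha, mul_one, map_inv, inv_mul_cancel_right]

end Pool.Agent.Helper13KM
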