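import Pool.Agent.Helper13KM.Cone
import Pool.Agent.Helper13KM.Group

/-!
# The cone conjecture: definitions
-/

set_option autoImplicit false

namespace Pool.Agent.Helper13KM

/-- The convex cone generated by the vectors in `s`. -/
def genCone {r : ℕ} (s : Finset (Fin r → ℝ)) : Set (Fin r → ℝ) :=
  {x | ∃ c : (Fin r → ℝ) → ℝ, (∀ v ∈ s, 0 ≤ c v) ∧ x = ∑ v ∈ s, c v • v}

/-- `P` is a rational polyhedral cone: it is generated by finitely many integral vectors. -/
def IsRationalPolyhedral {r : ℕ} (P : Set (Fin r → ℝ)) : Prop :=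
  ∃ s : Finset (Fin r → ℝ), (∀ v ∈ s, IsInt v) ∧ P = genCone s

/-- The numerical data of a smooth projective variety `Y`: the Picard number `rho`, so that
`N^1(Y) = ℝ^rho`, where the classes of the divisors are the integral vectors; the nef cone; the cone of
the classes of effective divisors; the group `Aut(Y)` and its action `φ ↦ (φ⁻¹)^*` on `N^1(Y)`. -/
structure LDatum where
  rho : ℕ
  nef : Set (Fin rho → ℝ)
  eff : Set (Fin rho → ℝ)
  Aut : Type
  [group : Group Aut]
  act : Aut →* ((Fin rho → ℝ) ≃ₗ[ℝ] (Fin rho → ℝ))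

attribute [instance] LDatum.group

/-- The Kawamata-Morrison cone conjecture for `Y`: there is a rational polyhedral cone `P` such that
the effective nef cone is the union of the translates of `P` by `Aut(Y)`, and the interiors of `P` and
of a translate `φ^* P` are disjoint unless `φ^*` is the identity. -/
def LConeConjecture (Y : LDatum) : Prop :=
  ∃ P : Set (Fin Y.rho → ℝ), IsRationalPolyhedral P ∧ Y.nef ∩ Y.eff = ⋃ φ : Y.Aut, Y.act φ '' P ∧
    ∀ φ : Y.Aut, (interior P ∩ Y.act φ '' interior P).Nonempty → Y.act φ = 1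

/-- The kernel of the action on `N^1(Y)` contains the neutral component `A` of the automorphism group,
which is an abelian variety for `K_Y ≡ 0`, as a subgroup of finite index. -/
def LHasTorusKernel (Y : LDatum) : Prop :=
  ∃ A : Subgroup Y.Aut, IsTorusLike A ∧ (∀ a ∈ A, Y.act a = 1) ∧
    ∃ R : Set Y.Aut, R.Finite ∧ ∀ φ, Y.act φ = 1 → ∃ a ∈ A, ∃ b ∈ R, φ = a * b

/-- The known properties of the data of a smooth projective variety `Y` with `K_Y ≡ 0`. The interior of
the nef cone is the ample cone. The linear form `ξ` in `degree` is the intersection number with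
`H^{n-1}`, `H` ample, which is positive on the nef classes different from zero. -/
structure LIsVariety (Y : LDatum) : Prop where
  nef_cone : IsConvexCone Y.nef
  nef_closed : IsClosed Y.nef
  eff_cone : IsConvexCone Y.eff
  ample : (interior Y.nef).Nonempty
  ample_eff : interior Y.nef ⊆ Y.eff
  degree : ∃ ξ : (Fin Y.rho → ℝ) →ₗ[ℝ] ℝ, IntFun ξ ∧ ∀ x ∈ Y.nef, x ≠ 0 → 0 < ξ x
  act_int : ∀ φ x, IsInt x → IsInt (Y.act φ x)
  act_nef : ∀ φ, ∀ x ∈ Y.nef, Y.act φ x ∈ Y.nef
  act_eff : ∀ φ, ∀ x ∈ Y.eff, Y.act φ x ∈ Y.eff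
  kernel : LHasTorusKernel Y

/-- The known properties of a finite étale Galois covering `π : Y' → Y` with the group `G ⊆ Aut(Y')`,
with `p = π^*`:

* `norm`: `π^* π_* z = ∑ g^* z`;
* `nef`, `eff`: a class is nef (effective) if its pull-back is nef (effective);
* `descend`: an automorphism of `Y'` which commutes with `G` descends to `Y`. -/
structure LIsGaloisCover (Y' Y : LDatum) (G : Subgroup Y'.Aut)
    (p : (Fin Y.rho → ℝ) →ₗ[ℝ] (Fin Y'.rho → ℝ)) : Prop where
  finite : Finite G
  injective : Function.Injective p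
  invariant : ∀ g ∈ G, ∀ x, Y'.act g (p x) = p x
  norm : ∀ z, IsInt z → ∃ u, IsInt u ∧ p u = ∑ᶠ g : G, Y'.act g z
  nef : ∀ x, p x ∈ Y'.nef ↔ x ∈ Y.nef
  eff : ∀ x, p x ∈ Y'.eff ↔ x ∈ Y.eff
  descend : ∀ φ : Y'.Aut, (∀ g ∈ G, φ * g = g * φ) →
    ∃ ψ : Y.Aut, ∀ x, p (Y.act ψ x) = Y'.act φ (p x)

end Pool.Agent.Helper13KM
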