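import Pool.Agent.Helper13KM.Xi

/-!
# The Dirichlet domain (Looijenga)
-/

set_option autoImplicit false

open Submodule

namespace Pool.Agent.Helper13KM

variable {r : ℕ}

/-- The convex cone generated by the integral vectors in `K`. -/
def ratCone (K : Submodule NNReal (Fin r → ℝ)) : Submodule NNReal (Fin r → ℝ) :=
  span NNReal {z | z ∈ K ∧ IsInt z}

lemma ratCone_le (K : Submodule NNReal (Fin r → ℝ)) : ratCone K ≤ K :=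
  span_le.2 fun _ hz => hz.1

variable {K : Submodule NNReal (Fin r → ℝ)}

lemma span_le_ratCone {s : Finset (Fin r → ℝ)} (h : ∀ v ∈ s, v ∈ K ∧ IsInt v) :
    span NNReal (s : Set (Fin r → ℝ)) ≤ ratCone K :=
  span_mono fun v hv => h v hv

/-- Images of finitely generated cones. -/
lemma map_mem_span (L : (Fin r → ℝ) →ₗ[ℝ] (Fin r → ℝ)) {S T : Set (Fin r → ℝ)}
    (h : ∀ v ∈ S, L v ∈ span NNReal T) {x : Fin r → ℝ} (hx : x ∈ span NNReal S) :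
    L x ∈ span NNReal T := by
  refine span_induction (p := fun x _ => L x ∈ span NNReal T) h ?_ ?_ ?_ hx
  · rw [map_zero]
    exact zero_mem _
  · intro x y _ _ h1 h2
    rw [map_add]
    exact add_mem h1 h2
  · intro a x _ h1
    rw [NNReal.smul_def, map_smul]
    exact smul_mem_span a.2 h1

lemma Preserves.map_ratCone {γ : (Fin r → ℝ) ≃ₗ[ℝ] (Fin r → ℝ)} (h : Preserves K γ)
    {x : Fin r → ℝ} (hx : x ∈ ratCone K) : γ x ∈ ratCone K :=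
  map_mem_span (γ : (Fin r → ℝ) →ₗ[ℝ] (Fin r → ℝ)) (T := {z | z ∈ K ∧ IsInt z})
    (fun v hv => subset_span ⟨h.2 v hv.1, h.1 v hv.2⟩) hx

variable {Γ : Subgroup ((Fin r → ℝ) ≃ₗ[ℝ] (Fin r → ℝ))} {ξ : (Fin r → ℝ) →ₗ[ℝ] ℝ}

/-- Dickson's lemma for the degrees of the translates of finitely many classes. -/
lemma dickson (hξ : IsPos K ξ) (hΓ : ∀ γ ∈ Γ, Preserves K γ) (u : Finset (Fin r → ℝ))
    (hu : ∀ v ∈ u, v ∈ K ∧ IsInt v) :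
    ∃ E : Finset ((Fin r → ℝ) ≃ₗ[ℝ] (Fin r → ℝ)), (∀ γ ∈ E, γ ∈ Γ) ∧
      ∀ δ ∈ Γ, ∃ γ ∈ E, ∀ v ∈ u, ξ (γ v) ≤ ξ (δ v) := by
  classical
  have h1 : ∀ γ : Γ, ∀ v : u, ∃ n : ℕ, ξ ((γ : (Fin r → ℝ) ≃ₗ[ℝ] (Fin r → ℝ)) v) = n := by
    intro γ v
    obtain ⟨z, hz⟩ := hξ.1 _ ((hΓ γ γ.2).1 v (hu v v.2).2)
    have h2 : 0 ≤ ξ ((γ : (Fin r → ℝ) ≃ₗ[ℝ] (Fin r → ℝ)) v) :=
      hξ.nonneg ((hΓ γ γ.2).2 v (hu v v.2).1)
    rw [hz] at h2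
    have h3 : 0 ≤ z := by exact_mod_cast h2
    refine ⟨z.toNat, ?_⟩
    rw [hz]
    have h4 : ((z.toNat : ℤ) : ℝ) = (z : ℝ) := by rw [Int.toNat_of_nonneg h3]
    rw [← h4, Int.cast_natCast]
  choose m hm using h1
  set M : Set (u → ℕ) := {a | Minimal (fun b => b ∈ Set.range m) a} with hM
  have hMf : M.Finite :=
    WellQuasiOrderedLE.finite_of_isAntichain (setOfPred_minimal_antichain _)
  have h2 : ∀ a : M, ∃ γ : Γ, m γ = a := fun a => a.2.1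
  choose g hg using h2
  have : Finite M := hMf
  set E : Set ((Fin r → ℝ) ≃ₗ[ℝ] (Fin r → ℝ)) := Set.range fun a : M => (g a : _) with hE
  have hEf : E.Finite := Set.finite_range _
  refine ⟨hEf.toFinset, ?_, ?_⟩
  · intro γ hγ
    rw [Set.Finite.mem_toFinset] at hγ
    obtain ⟨a, rfl⟩ := hγ
    exact (g a).2
  · intro δ hδ
    obtain ⟨b, hb, hb'⟩ := exists_minimal_le_of_wellFoundedLT (fun b => b ∈ Set.range m)
      (m ⟨δ, hδ⟩) ⟨_, rfl⟩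
    refine ⟨g ⟨b, hb'⟩, ?_, ?_⟩
    · rw [Set.Finite.mem_toFinset]
      exact ⟨⟨b, hb'⟩, rfl⟩
    · intro v hv
      have h3 := hm (g ⟨b, hb'⟩) ⟨v, hv⟩
      have h4 := hm ⟨δ, hδ⟩ ⟨v, hv⟩
      have h5 : m (g ⟨b, hb'⟩) ⟨v, hv⟩ ≤ m ⟨δ, hδ⟩ ⟨v, hv⟩ := by
        rw [hg ⟨b, hb'⟩]
        exact hb ⟨v, hv⟩
      rw [h3, h4]
      exact_mod_cast h5

lemma le_of_span {u : Finset (Fin r → ℝ)} {γ δ : (Fin r → ℝ) ≃ₗ[ℝ] (Fin r → ℝ)}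
    (h : ∀ v ∈ u, ξ (γ v) ≤ ξ (δ v)) {x : Fin r → ℝ}
    (hx : x ∈ span NNReal (u : Set (Fin r → ℝ))) : ξ (γ x) ≤ ξ (δ x) := by
  refine span_induction (p := fun x _ => ξ (γ x) ≤ ξ (δ x)) h ?_ ?_ ?_ hx
  · simp
  · intro x y _ _ h1 h2
    simp only [map_add]
    exact add_le_add h1 h2
  · intro a x _ h1
    simp only [NNReal.smul_def, map_smul, smul_eq_mul]
    exact mul_le_mul_of_nonneg_left h1 a.2

/-- The minimum of the degree on an orbit in `ratCone K` is attained. -/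
lemma attained (hξ : IsPos K ξ) (hΓ : ∀ γ ∈ Γ, Preserves K γ) {x : Fin r → ℝ}
    (hx : x ∈ ratCone K) : ∃ γ ∈ Γ, ∀ δ ∈ Γ, ξ (γ x) ≤ ξ (δ x) := by
  obtain ⟨u, hu, hxu⟩ := mem_span_finite_of_mem_span hx
  obtain ⟨E, hE, hE'⟩ := dickson hξ hΓ u fun v hv => hu hv
  have hne : E.Nonempty := by
    obtain ⟨γ, hγ, -⟩ := hE' 1 Γ.one_mem
    exact ⟨γ, hγ⟩
  obtain ⟨γ, hγ, hmin⟩ := E.exists_min_image (fun γ => ξ (γ x)) hne
  refine ⟨γ, hE γ hγ, fun δ hδ => ?_⟩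
  obtain ⟨ε, hε, hε'⟩ := hE' δ hδ
  exact (hmin ε hε).trans (le_of_span hε' hxu)

/-- The Dirichlet domain. -/
def dirichlet (K : Submodule NNReal (Fin r → ℝ)) (Γ : Subgroup ((Fin r → ℝ) ≃ₗ[ℝ] (Fin r → ℝ)))
    (ξ : (Fin r → ℝ) →ₗ[ℝ] ℝ) : Submodule NNReal (Fin r → ℝ) where
  carrier := {x | x ∈ ratCone K ∧ ∀ γ ∈ Γ, ξ x ≤ ξ (γ x)}
  zero_mem' := ⟨zero_mem _, fun γ _ => by simp⟩
  add_mem' := by
    rintro x y ⟨h1, h2⟩ ⟨h3, h4⟩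
    refine ⟨add_mem h1 h3, fun γ hγ => ?_⟩
    rw [map_add, map_add, map_add]
    exact add_le_add (h2 γ hγ) (h4 γ hγ)
  smul_mem' := by
    rintro a x ⟨h1, h2⟩
    refine ⟨smul_mem _ a h1, fun γ hγ => ?_⟩
    simp only [NNReal.smul_def, map_smul, smul_eq_mul]
    exact mul_le_mul_of_nonneg_left (h2 γ hγ) a.2

lemma mem_dirichlet {x : Fin r → ℝ} :
    x ∈ dirichlet K Γ ξ ↔ x ∈ ratCone K ∧ ∀ γ ∈ Γ, ξ x ≤ ξ (γ x) := Iff.rfl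

/-- The translates of the Dirichlet domain cover `ratCone K`. -/
lemma dirichlet_cover (hξ : IsPos K ξ) (hΓ : ∀ γ ∈ Γ, Preserves K γ) {x : Fin r → ℝ}
    (hx : x ∈ ratCone K) : ∃ γ ∈ Γ, γ x ∈ dirichlet K Γ ξ := by
  obtain ⟨γ, hγ, h⟩ := attained hξ hΓ hx
  refine ⟨γ, hγ, (hΓ γ hγ).map_ratCone hx, fun δ hδ => ?_⟩
  exact h (δ * γ) (Γ.mul_mem hδ hγ)

/-- If an element of the group maps an interior point of the Dirichlet domain to a point of the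
domain, then it is trivial. -/
lemma eq_one_of_mem (hst : ∀ γ ∈ Γ, (∀ x, ξ (γ x) = ξ x) → γ = 1) {γ : (Fin r → ℝ) ≃ₗ[ℝ] (Fin r → ℝ)}
    (hγ : γ ∈ Γ) {x : Fin r → ℝ} (hx : x ∈ interior (dirichlet K Γ ξ : Set (Fin r → ℝ)))
    (hγx : ξ (γ x) = ξ x) : γ = 1 := by
  set f : (Fin r → ℝ) →ₗ[ℝ] ℝ := ξ ∘ₗ (γ : (Fin r → ℝ) →ₗ[ℝ] (Fin r → ℝ)) - ξ with hf
  have h1 : f = 0 := by
    refine eq_zero_of_interior (dirichlet K Γ ξ) ?_ hx ?_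
    · intro y hy
      have := hy.2 γ hγ
      simp only [hf, LinearMap.sub_apply, LinearMap.comp_apply, LinearEquiv.coe_coe]
      linarith
    · simp only [hf, LinearMap.sub_apply, LinearMap.comp_apply, LinearEquiv.coe_coe]
      rw [hγx, sub_self]
  refine hst γ hγ fun y => ?_
  have h2 : f y = 0 := by rw [h1]; rfl
  simp only [hf, LinearMap.sub_apply, LinearMap.comp_apply, LinearEquiv.coe_coe] at h2
  linarith

end Pool.Agent.Helper13KM
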