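import Pool.Agent.Helper13KM.Bridge

/-!
# The cone conjecture for a factor of a product
-/

set_option autoImplicit false

open Submodule

namespace Pool.Agent.Helper13KM

/-- The known properties of a product `X = X₁ × X₂` for a strict Calabi-Yau manifold `X₁` and an abelian
variety `X₂`: `N^1(X) = N^1(X₁) ⊕ N^1(X₂)`, also for the groups of the classes of the divisors, and every
automorphism of `X` is the product of an automorphism of `X₁` and an automorphism of `X₂`. -/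
structure IsRigidProduct (X X₁ X₂ : Datum) (i₁ : (Fin X₁.rho → ℝ) → (Fin X.rho → ℝ))
    (i₂ : (Fin X₂.rho → ℝ) → (Fin X.rho → ℝ)) : Prop where
  product : IsProduct X X₁ X₂ i₁ i₂
  int : ∀ x₁ x₂, IsInt (i₁ x₁ + i₂ x₂) → IsInt x₁ ∧ IsInt x₂
  aut : ∀ φ : X.Aut, ∃ (φ₁ : X₁.Aut) (φ₂ : X₂.Aut), ∀ x₁ x₂,
    X.act φ (i₁ x₁ + i₂ x₂) = i₁ (X₁.act φ₁ x₁) + i₂ (X₂.act φ₂ x₂)

lemma IsVariety.salient {Y : Datum} (hY : IsVariety Y) {x : Fin Y.rho → ℝ} (h : x ∈ Y.nef)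
    (h' : -x ∈ Y.nef) : x = 0 := by
  obtain ⟨ξ, -, hξ⟩ := hY.degree.toL
  by_contra h0
  have h1 := hξ x h h0
  have h2 := hξ (-x) h' (neg_ne_zero.2 h0)
  rw [map_neg] at h2
  linarith

variable {X X₁ X₂ : Datum} {i₁ : (Fin X₁.rho → ℝ) → (Fin X.rho → ℝ)}
  {i₂ : (Fin X₂.rho → ℝ) → (Fin X.rho → ℝ)}

lemma IsLin.zero {r s : ℕ} {f : (Fin r → ℝ) → (Fin s → ℝ)} (h : IsLin f) : f 0 = 0 :=
  map_zero h.toLin

lemma IsLin.neg {r s : ℕ} {f : (Fin r → ℝ) → (Fin s → ℝ)} (h : IsLin f) (x : Fin r → ℝ) :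
    f (-x) = -f x := map_neg h.toLin x

lemma IsLin.sub {r s : ℕ} {f : (Fin r → ℝ) → (Fin s → ℝ)} (h : IsLin f) (x y : Fin r → ℝ) :
    f (x - y) = f x - f y := map_sub h.toLin x y

/-- The decomposition is unique. -/
lemma IsProduct.unique (hp : IsProduct X X₁ X₂ i₁ i₂) (hX : IsVariety X) (hX₁ : IsVariety X₁)
    {x y : Fin X₁.rho → ℝ} {x' y' : Fin X₂.rho → ℝ} (h : i₁ x + i₂ x' = i₁ y + i₂ y') : x = y := by
  have h1 : i₁ (x - y) + i₂ (x' - y') = 0 := by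
    rw [hp.lin₁.sub, hp.lin₂.sub]
    have h2 : i₁ x - i₁ y + (i₂ x' - i₂ y') = (i₁ x + i₂ x') - (i₁ y + i₂ y') := by abel
    rw [h2, h, sub_self]
  have h2 : i₁ (-(x - y)) + i₂ (-(x' - y')) = 0 := by
    rw [hp.lin₁.neg, hp.lin₂.neg, ← neg_add, h1, neg_zero]
  have h3 : (0 : Fin X.rho → ℝ) ∈ X.nef := hX.nef_cone.1
  have h4 := ((hp.nef (x - y) (x' - y')).1 (by rw [h1]; exact h3)).1
  have h5 := ((hp.nef (-(x - y)) (-(x' - y'))).1 (by rw [h2]; exact h3)).1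
  exact sub_eq_zero.1 (hX₁.salient h4 h5)

/-- The cone conjecture for the product implies it for the first factor. -/
theorem factor (hX : IsVariety X) (hX₁ : IsVariety X₁) (hX₂ : IsVariety X₂)
    (hp : IsRigidProduct X X₁ X₂ i₁ i₂) (h : ConeConjecture X) : ConeConjecture X₁ := by
  classical
  have hweak : ∃ s : Finset (Fin X.rho → ℝ), (∀ v ∈ s, IsInt v) ∧ (∀ v ∈ s, v ∈ X.nef ∧ v ∈ X.eff) ∧
      ∀ x ∈ X.nef, x ∈ X.eff → ∃ φ : X.Aut,
        ∃ y ∈ span NNReal (s : Set (Fin X.rho → ℝ)), x = X.act φ y :=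
    weak_of_coneConjecture ((coneConjecture_iff hX.action).1 h)
  obtain ⟨s, hsi, hs, hcov⟩ := hweak
  rw [coneConjecture_iff hX₁.action]
  have hP := hp.product
  choose a b hab using hP.sum
  have huniq : ∀ x x', a (i₁ x + i₂ x') = x := by
    intro x x'
    exact (hP.unique hX hX₁ (hab (i₁ x + i₂ x'))).symm
  -- the projection is linear
  have hadd : ∀ z w, a (z + w) = a z + a w := by
    intro z w
    have h1 : z + w = i₁ (a z + a w) + i₂ (b z + b w) := by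
      rw [hP.lin₁.1, hP.lin₂.1]
      conv_lhs => rw [hab z, hab w]
      abel
    rw [h1, huniq]
  have hsmul : ∀ (c : ℝ) z, a (c • z) = c • a z := by
    intro c z
    have h1 : c • z = i₁ (c • a z) + i₂ (c • b z) := by
      rw [hP.lin₁.2, hP.lin₂.2, ← smul_add, ← hab z]
    rw [h1, huniq]
  have hzero : a 0 = 0 := by
    have h1 := hsmul 0 0
    rwa [zero_smul, zero_smul] at h1
  refine coneConjecture_of_weak hX₁.toL (s.image a) ?_ ?_ ?_
  · intro v hv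
    obtain ⟨w, hw, rfl⟩ := Finset.mem_image.1 hv
    refine (hp.int (a w) (b w) ?_).1
    rw [← hab w]
    exact hsi w hw
  · intro v hv
    obtain ⟨w, hw, rfl⟩ := Finset.mem_image.1 hv
    have h1 : w ∈ X.nef ∧ w ∈ X.eff := hs w hw
    rw [hab w] at h1
    exact ⟨((hP.nef _ _).1 h1.1).1, ((hP.eff _ _).1 h1.2).1⟩
  · intro x hx hx'
    have h1 : i₁ x + i₂ 0 ∈ X.nef := (hP.nef x 0).2 ⟨hx, hX₂.nef_cone.1⟩
    have h2 : i₁ x + i₂ 0 ∈ X.eff := (hP.eff x 0).2 ⟨hx', hX₂.eff_cone.1⟩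
    obtain ⟨φ, y, hy, hxy⟩ := hcov _ h1 h2
    obtain ⟨φ₁, φ₂, hφ⟩ := hp.aut φ
    refine ⟨φ₁, a y, ?_, ?_⟩
    · refine span_induction
        (p := fun y _ => a y ∈ span NNReal ((s.image a : Finset _) : Set (Fin X₁.rho → ℝ)))
        ?_ ?_ ?_ ?_ hy
      · exact fun w hw => subset_span (Finset.mem_coe.2 (Finset.mem_image_of_mem a hw))
      · rw [hzero]
        exact zero_mem _
      · intro z w _ _ h5 h6
        rw [hadd]
        exact add_mem h5 h6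
      · intro c z _ h5
        rw [NNReal.smul_def, hsmul]
        exact smul_mem_span c.2 h5
    · have h3 : i₁ x + i₂ 0 = X.act φ y := hxy
      rw [hab y, hφ] at h3
      exact hP.unique hX hX₁ h3

end Pool.Agent.Helper13KM
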