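import Pool.Agent.Helper13KM.Cone

/-!
# Positive linear forms on the nef cone
-/

set_option autoImplicit false

open Submodule

namespace Pool.Agent.Helper13KM

variable {r : ℕ}

section interior

variable (K : Submodule NNReal (Fin r → ℝ))

lemma add_mem_interior {x y : Fin r → ℝ} (hx : x ∈ interior (K : Set (Fin r → ℝ))) (hy : y ∈ K) :
    x + y ∈ interior (K : Set (Fin r → ℝ)) := by
  have h1 : IsOpen {z : Fin r → ℝ | z - y ∈ interior (K : Set (Fin r → ℝ))} :=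
    isOpen_interior.preimage (by fun_prop)
  refine interior_maximal ?_ h1 (by simpa using hx)
  intro z hz
  have h2 : z - y ∈ K := interior_subset hz
  have h3 := K.add_mem h2 hy
  rwa [sub_add_cancel] at h3

lemma smul_mem_interior {x : Fin r → ℝ} (hx : x ∈ interior (K : Set (Fin r → ℝ))) {c : ℝ}
    (hc : 0 < c) : c • x ∈ interior (K : Set (Fin r → ℝ)) := by
  have h1 : IsOpen {z : Fin r → ℝ | c⁻¹ • z ∈ interior (K : Set (Fin r → ℝ))} :=
    isOpen_interior.preimage (by fun_prop)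
  refine interior_maximal ?_ h1 ?_
  · intro z hz
    have h2 : c⁻¹ • z ∈ K := interior_subset hz
    have h3 : c • c⁻¹ • z ∈ K := K.smul_mem (⟨c, hc.le⟩ : NNReal) h2
    rwa [smul_smul, mul_inv_cancel₀ hc.ne', one_smul] at h3
  · show c⁻¹ • c • x ∈ interior (K : Set (Fin r → ℝ))
    rwa [smul_smul, inv_mul_cancel₀ hc.ne', one_smul]

lemma real_smul_mem {x : Fin r → ℝ} (hx : x ∈ K) {c : ℝ} (hc : 0 ≤ c) : c • x ∈ K :=
  K.smul_mem (⟨c, hc⟩ : NNReal) hx

/-- A linear form which is nonnegative on `K` and zero at an interior point is zero. -/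
lemma eq_zero_of_interior {f : (Fin r → ℝ) →ₗ[ℝ] ℝ} (hf : ∀ x ∈ K, 0 ≤ f x) {x : Fin r → ℝ}
    (hx : x ∈ interior (K : Set (Fin r → ℝ))) (h0 : f x = 0) : f = 0 := by
  ext1 i
  refine LinearMap.ext_ring ?_
  rw [LinearMap.zero_comp, LinearMap.zero_apply, LinearMap.comp_apply]
  set v := (LinearMap.single ℝ (fun _ => ℝ) i) (1 : ℝ) with hv
  obtain ⟨δ, hδ, hball⟩ := Metric.isOpen_iff.1 isOpen_interior x hx
  obtain ⟨ε, hε, hε'⟩ : ∃ ε : ℝ, 0 < ε ∧ ε * ‖v‖ < δ := by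
    refine ⟨δ / (2 * (‖v‖ + 1)), by positivity, ?_⟩
    have h1 : 0 ≤ ‖v‖ := norm_nonneg v
    rw [div_mul_eq_mul_div, div_lt_iff₀ (by positivity)]
    nlinarith
  have h1 : x + ε • v ∈ K := by
    refine interior_subset (hball ?_)
    rw [Metric.mem_ball, dist_eq_norm, add_sub_cancel_left, norm_smul, Real.norm_of_nonneg hε.le]
    exact hε'
  have h2 : x - ε • v ∈ K := by
    refine interior_subset (hball ?_)
    rw [Metric.mem_ball, dist_eq_norm, sub_sub_cancel_left, norm_neg, norm_smul,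
      Real.norm_of_nonneg hε.le]
    exact hε'
  have h3 := hf _ h1
  have h4 := hf _ h2
  rw [map_add, map_smul, h0, zero_add, smul_eq_mul] at h3
  rw [map_sub, map_smul, h0, zero_sub, smul_eq_mul] at h4
  have h5 : ε * f v = 0 := le_antisymm (neg_nonneg.1 h4) h3
  rcases mul_eq_zero.1 h5 with h6 | h6
  · exact absurd h6 hε.ne'
  · exact h6

end interior

/-- The properties of the nef cone. -/
structure IsNefCone (K : Submodule NNReal (Fin r → ℝ)) : Prop where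
  closed : IsClosed (K : Set (Fin r → ℝ))
  interior_nonempty : (interior (K : Set (Fin r → ℝ))).Nonempty
  pos : ∃ ξ : (Fin r → ℝ) →ₗ[ℝ] ℝ, IntFun ξ ∧ ∀ x ∈ K, x ≠ 0 → 0 < ξ x

/-- The linear form `ξ` is integral and positive on the nef cone. -/
def IsPos (K : Submodule NNReal (Fin r → ℝ)) (ξ : (Fin r → ℝ) →ₗ[ℝ] ℝ) : Prop :=
  IntFun ξ ∧ ∀ x ∈ K, x ≠ 0 → 0 < ξ x

variable {K : Submodule NNReal (Fin r → ℝ)}

lemma IsPos.nonneg {ξ : (Fin r → ℝ) →ₗ[ℝ] ℝ} (hξ : IsPos K ξ) {x : Fin r → ℝ} (hx : x ∈ K) :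
    0 ≤ ξ x := by
  rcases eq_or_ne x 0 with h | h
  · rw [h, map_zero]
  · exact (hξ.2 x hx h).le

lemma exists_bound (hK : IsNefCone K) {ξ : (Fin r → ℝ) →ₗ[ℝ] ℝ}
    (hξ : ∀ x ∈ K, x ≠ 0 → 0 < ξ x) : ∃ ε : ℝ, 0 < ε ∧ ∀ x ∈ K, ε * ‖x‖ ≤ ξ x := by
  have hcont : Continuous ξ := LinearMap.continuous_of_finiteDimensional ξ
  set S : Set (Fin r → ℝ) := K ∩ Metric.sphere 0 1 with hS
  have hSc : IsCompact S := (isCompact_sphere 0 1).inter_left hK.closed
  have hnorm : ∀ x ∈ K, x ≠ 0 → ‖x‖⁻¹ • x ∈ S := by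
    intro x hx hx0
    refine ⟨real_smul_mem K hx (inv_nonneg.2 (norm_nonneg x)), ?_⟩
    rw [mem_sphere_zero_iff_norm, norm_smul, norm_inv, norm_norm,
      inv_mul_cancel₀ (norm_ne_zero_iff.2 hx0)]
  rcases S.eq_empty_or_nonempty with h | h
  · refine ⟨1, one_pos, fun x hx => ?_⟩
    rcases eq_or_ne x 0 with h0 | h0
    · rw [h0, norm_zero, mul_zero, map_zero]
    · exact absurd (hnorm x hx h0) (by rw [h]; exact Set.notMem_empty _)
  · obtain ⟨y, hy, hmin⟩ := hSc.exists_isMinOn h hcont.continuousOn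
    have hy0 : y ≠ 0 := by
      intro h0
      have := hy.2
      rw [mem_sphere_zero_iff_norm, h0, norm_zero] at this
      exact zero_ne_one this
    refine ⟨ξ y, hξ y hy.1 hy0, fun x hx => ?_⟩
    rcases eq_or_ne x 0 with h0 | h0
    · rw [h0, norm_zero, mul_zero, map_zero]
    · have h1 : ξ y ≤ ξ (‖x‖⁻¹ • x) := hmin (hnorm x hx h0)
      have h2 : 0 < ‖x‖ := norm_pos_iff.2 h0
      rw [map_smul, smul_eq_mul, ← div_eq_inv_mul, le_div_iff₀ h2] at h1
      exact h1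

/-- There are only finitely many integral vectors of bounded degree in the nef cone. -/
lemma finite_int (hK : IsNefCone K) {ξ : (Fin r → ℝ) →ₗ[ℝ] ℝ}
    (hξ : ∀ x ∈ K, x ≠ 0 → 0 < ξ x) (c : ℝ) : {z | z ∈ K ∧ IsInt z ∧ ξ z ≤ c}.Finite := by
  obtain ⟨ε, hε, h⟩ := exists_bound hK hξ
  obtain ⟨N, hN⟩ := exists_nat_ge (c / ε)
  have hfin : (Set.Icc (fun _ => -(N : ℤ)) (fun _ => (N : ℤ)) : Set (Fin r → ℤ)).Finite :=
    Set.finite_Icc _ _
  refine (hfin.image fun z i => ((z i : ℤ) : ℝ)).subset ?_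
  rintro z ⟨hz, hzi, hzc⟩
  choose m hm using hzi
  refine ⟨m, ?_, funext fun i => (hm i).symm⟩
  have h1 : ‖z‖ ≤ N := by
    have := (h z hz).trans hzc
    rw [mul_comm, ← le_div_iff₀ hε] at this
    exact this.trans hN
  have h2 : ∀ i, |(m i : ℝ)| ≤ N := by
    intro i
    rw [← hm i, ← Real.norm_eq_abs]
    exact (norm_le_pi_norm z i).trans h1
  constructor
  · intro i
    have := (abs_le.1 (h2 i)).1
    exact_mod_cast this
  · intro i
    have := (abs_le.1 (h2 i)).2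
    exact_mod_cast this

lemma exists_int_interior (hK : IsNefCone K) :
    ∃ v ∈ interior (K : Set (Fin r → ℝ)), IsInt v := by
  obtain ⟨x, hx⟩ := hK.interior_nonempty
  obtain ⟨δ, hδ, hball⟩ := Metric.isOpen_iff.1 isOpen_interior x hx
  have h1 : ∀ i, ∃ q : ℚ, x i - δ / 2 < q ∧ (q : ℝ) < x i + δ / 2 := fun i =>
    exists_rat_btwn (by linarith)
  choose q hq1 hq2 using h1
  have h2 : (fun i => (q i : ℝ)) ∈ interior (K : Set (Fin r → ℝ)) := by
    apply hball
    rw [Metric.mem_ball, dist_eq_norm]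
    refine lt_of_le_of_lt ((pi_norm_le_iff_of_nonneg (by linarith : (0 : ℝ) ≤ δ / 2)).2 ?_)
      (by linarith : δ / 2 < δ)
    intro i
    rw [Real.norm_eq_abs, abs_le, Pi.sub_apply]
    constructor <;> linarith [hq1 i, hq2 i]
  set D : ℕ := ∏ i, (q i).den with hD
  have hDpos : 0 < D := Finset.prod_pos fun i _ => (q i).pos
  refine ⟨(D : ℝ) • fun i => (q i : ℝ), smul_mem_interior K h2 (by exact_mod_cast hDpos), ?_⟩
  intro i
  obtain ⟨e, he⟩ : (q i).den ∣ D := Finset.dvd_prod_of_mem _ (Finset.mem_univ i)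
  refine ⟨e * (q i).num, ?_⟩
  have h3 : (q i : ℝ) * ((q i).den : ℝ) = (q i).num := by
    exact_mod_cast Rat.mul_den_eq_num (q i)
  rw [Pi.smul_apply, smul_eq_mul, he]
  push_cast
  rw [← h3]
  ring

/-- The linear automorphism `γ` preserves the integral vectors and the nef cone. -/
def Preserves (K : Submodule NNReal (Fin r → ℝ)) (γ : (Fin r → ℝ) ≃ₗ[ℝ] (Fin r → ℝ)) : Prop :=
  (∀ z, IsInt z → IsInt (γ z)) ∧ ∀ x ∈ K, γ x ∈ K

lemma Preserves.map_interior {γ : (Fin r → ℝ) ≃ₗ[ℝ] (Fin r → ℝ)} (h : Preserves K γ)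
    {x : Fin r → ℝ} (hx : x ∈ interior (K : Set (Fin r → ℝ))) :
    γ x ∈ interior (K : Set (Fin r → ℝ)) := by
  have hc : Continuous γ.symm :=
    LinearMap.continuous_of_finiteDimensional (γ.symm : (Fin r → ℝ) →ₗ[ℝ] (Fin r → ℝ))
  have h1 : IsOpen {z : Fin r → ℝ | γ.symm z ∈ interior (K : Set (Fin r → ℝ))} :=
    isOpen_interior.preimage hc
  refine interior_maximal ?_ h1 (by simpa using hx)
  intro z hz
  have h2 := h.2 _ (interior_subset hz)
  rwa [LinearEquiv.apply_symm_apply] at h2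

/-- There are only finitely many automorphisms such that the degree of the image of a given ample
integral class is bounded. -/
lemma finite_stab (hK : IsNefCone K) {ξ : (Fin r → ℝ) →ₗ[ℝ] ℝ}
    (hξ : ∀ x ∈ K, x ≠ 0 → 0 < ξ x) {v : Fin r → ℝ} (hv : v ∈ interior (K : Set (Fin r → ℝ)))
    (hvi : IsInt v) (c : ℝ) : {γ | Preserves K γ ∧ ξ (γ v) ≤ c}.Finite := by
  have hnn : ∀ x ∈ K, 0 ≤ ξ x := by
    intro x hx
    rcases eq_or_ne x 0 with h | h
    · rw [h, map_zero]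
    · exact (hξ x hx h).le
  obtain ⟨δ, hδ, hball⟩ := Metric.isOpen_iff.1 isOpen_interior v hv
  obtain ⟨n, hn⟩ := exists_nat_gt (1 / δ)
  have hn0 : (0 : ℝ) < n := (by positivity : (0 : ℝ) < 1 / δ).trans hn
  have hb : ∀ u : Fin r → ℝ, ‖u‖ ≤ 1 → (n : ℝ) • v + u ∈ K := by
    intro u hu
    have h1 : v + (n : ℝ)⁻¹ • u ∈ K := by
      refine interior_subset (hball ?_)
      rw [Metric.mem_ball, dist_eq_norm, add_sub_cancel_left, norm_smul, norm_inv,
        Real.norm_of_nonneg hn0.le]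
      calc (n : ℝ)⁻¹ * ‖u‖ ≤ (n : ℝ)⁻¹ * 1 := by gcongr
        _ = 1 / n := by rw [mul_one, one_div]
        _ < δ := by
          rw [div_lt_iff₀ hn0]
          rw [div_lt_iff₀ hδ] at hn
          linarith
    have h2 := real_smul_mem K h1 hn0.le
    rwa [smul_add, smul_smul, mul_inv_cancel₀ hn0.ne', one_smul] at h2
  have he : ∀ i, ‖(Pi.single i (1 : ℝ) : Fin r → ℝ)‖ ≤ 1 := by
    intro i
    rw [pi_norm_le_iff_of_nonneg zero_le_one]
    intro j
    rcases eq_or_ne j i with h | h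
    · rw [h, Pi.single_eq_same, norm_one]
    · rw [Pi.single_eq_of_ne h, norm_zero]
      exact zero_le_one
  set B : Set (Fin r → ℝ) := {z | z ∈ K ∧ IsInt z ∧ ξ z ≤ 2 * (n * c)} with hB
  have hBf : B.Finite := finite_int hK hξ _
  set F : ((Fin r → ℝ) ≃ₗ[ℝ] (Fin r → ℝ)) → (Option (Fin r) → (Fin r → ℝ)) := fun γ o =>
    match o with
    | none => γ ((n : ℝ) • v)
    | some i => γ ((n : ℝ) • v + Pi.single i 1) with hF
  refine Set.Finite.of_injOn (f := F) (t := Set.pi Set.univ fun _ => B) ?_ ?_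
    (Set.Finite.pi fun _ => hBf)
  · rintro γ ⟨hγ, hγc⟩ o -
    have hc0 : 0 ≤ ξ (γ v) := hnn _ (hγ.2 v (interior_subset hv))
    have h1 : ξ (γ ((n : ℝ) • v)) = n * ξ (γ v) := by
      rw [map_smul, map_smul, smul_eq_mul]
    have h2 : (n : ℝ) * ξ (γ v) ≤ n * c := mul_le_mul_of_nonneg_left hγc hn0.le
    have h2' : 0 ≤ (n : ℝ) * ξ (γ v) := mul_nonneg hn0.le hc0
    cases o with
    | none =>
      refine ⟨hγ.2 _ ?_, hγ.1 _ (hvi.nsmul n), ?_⟩
      · exact real_smul_mem K (interior_subset hv) hn0.le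
      · show ξ (γ ((n : ℝ) • v)) ≤ _
        rw [h1]
        linarith
    | some i =>
      refine ⟨hγ.2 _ (hb _ (he i)), hγ.1 _ ((hvi.nsmul n).add (isInt_single i)), ?_⟩
      show ξ (γ ((n : ℝ) • v + Pi.single i 1)) ≤ _
      have h3 : 0 ≤ ξ (γ ((n : ℝ) • v + -Pi.single i 1)) :=
        hnn _ (hγ.2 _ (hb _ (by rw [norm_neg]; exact he i)))
      rw [map_add, map_add, h1, map_neg, map_neg] at h3
      rw [map_add, map_add, h1]
      linarith
  · rintro γ - γ' - hγγ'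
    have h1 : γ ((n : ℝ) • v) = γ' ((n : ℝ) • v) := congrFun hγγ' none
    have h2 : ∀ i, γ (Pi.single i 1) = γ' (Pi.single i 1) := by
      intro i
      have h3 : γ ((n : ℝ) • v + Pi.single i 1) = γ' ((n : ℝ) • v + Pi.single i 1) :=
        congrFun hγγ' (some i)
      rw [map_add, map_add, h1] at h3
      exact add_left_cancel h3
    have h4 : (γ : (Fin r → ℝ) →ₗ[ℝ] (Fin r → ℝ)) = γ' := by
      refine LinearMap.pi_ext' fun i => LinearMap.ext_ring ?_
      exact h2 i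
    exact LinearEquiv.toLinearMap_injective h4

end Pool.Agent.Helper13KM
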