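import Pool.Agent.Helper13KM.Dirichlet

/-!
# The Dirichlet domain is rational polyhedral (Looijenga)
-/

set_option autoImplicit false

open Submodule

namespace Pool.Agent.Helper13KM

variable {r : ℕ} {K : Submodule NNReal (Fin r → ℝ)}
  {Γ : Subgroup ((Fin r → ℝ) ≃ₗ[ℝ] (Fin r → ℝ))} {ξ : (Fin r → ℝ) →ₗ[ℝ] ℝ}

lemma countable_group (hΓ : ∀ γ ∈ Γ, Preserves K γ) : Countable Γ := by
  have h1 : ∀ γ : Γ, ∀ j i : Fin r, ∃ z : ℤ,
      (γ : (Fin r → ℝ) ≃ₗ[ℝ] (Fin r → ℝ)) (Pi.single j 1) i = z := fun γ j i =>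
    (hΓ γ γ.2).1 _ (isInt_single j) i
  choose m hm using h1
  refine Function.Injective.countable (f := m) ?_
  intro γ γ' h
  apply Subtype.ext
  apply LinearEquiv.toLinearMap_injective
  refine LinearMap.pi_ext' fun j => LinearMap.ext_ring ?_
  funext i
  show (γ : (Fin r → ℝ) ≃ₗ[ℝ] (Fin r → ℝ)) (Pi.single j 1) i =
    (γ' : (Fin r → ℝ) ≃ₗ[ℝ] (Fin r → ℝ)) (Pi.single j 1) i
  rw [hm, hm, h]

lemma continuous_equiv (γ : (Fin r → ℝ) ≃ₗ[ℝ] (Fin r → ℝ)) : Continuous γ :=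
  LinearMap.continuous_of_finiteDimensional (γ : (Fin r → ℝ) →ₗ[ℝ] (Fin r → ℝ))

/-- The Dirichlet domain has interior points if the translates of a cone in `ratCone K` cover the
interior of `K`. -/
lemma dirichlet_interior (hK : IsNefCone K) (hΓ : ∀ γ ∈ Γ, Preserves K γ) (hξ : IsPos K ξ)
    (hrat : ∀ x ∈ interior (K : Set (Fin r → ℝ)), x ∈ ratCone K) :
    (interior (dirichlet K Γ ξ : Set (Fin r → ℝ))).Nonempty := by
  have hcount : Countable Γ := countable_group hΓ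
  have hξc : Continuous ξ := LinearMap.continuous_of_finiteDimensional ξ
  set F : Option Γ → Set (Fin r → ℝ) := fun o =>
    match o with
    | none => (interior (K : Set (Fin r → ℝ)))ᶜ
    | some γ => {x | (γ : (Fin r → ℝ) ≃ₗ[ℝ] (Fin r → ℝ)) x ∈ K ∧ ∀ δ : Γ,
        ξ ((γ : (Fin r → ℝ) ≃ₗ[ℝ] (Fin r → ℝ)) x) ≤
          ξ ((δ : (Fin r → ℝ) ≃ₗ[ℝ] (Fin r → ℝ)) ((γ : (Fin r → ℝ) ≃ₗ[ℝ] (Fin r → ℝ)) x))}
    with hF
  have hclosed : ∀ o, IsClosed (F o) := by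
    intro o
    cases o with
    | none => exact isOpen_interior.isClosed_compl
    | some γ =>
      refine IsClosed.inter (hK.closed.preimage (continuous_equiv _)) ?_
      show IsClosed {x | ∀ δ : Γ, ξ ((γ : (Fin r → ℝ) ≃ₗ[ℝ] (Fin r → ℝ)) x) ≤
          ξ ((δ : (Fin r → ℝ) ≃ₗ[ℝ] (Fin r → ℝ)) ((γ : (Fin r → ℝ) ≃ₗ[ℝ] (Fin r → ℝ)) x))}
      rw [Set.ofPred_forall]
      refine isClosed_iInter fun δ => isClosed_le ?_ ?_
      · exact hξc.comp (continuous_equiv _)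
      · exact hξc.comp ((continuous_equiv _).comp (continuous_equiv _))
  have hunion : ⋃ o, F o = Set.univ := by
    rw [Set.eq_univ_iff_forall]
    intro x
    rw [Set.mem_iUnion]
    by_cases hx : x ∈ interior (K : Set (Fin r → ℝ))
    · obtain ⟨γ, hγ, h1, h2⟩ := dirichlet_cover hξ hΓ (hrat x hx)
      exact ⟨some ⟨γ, hγ⟩, ratCone_le K h1, fun δ => h2 δ δ.2⟩
    · exact ⟨none, hx⟩
  have hdense := dense_iUnion_interior_of_closed hclosed hunion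
  obtain ⟨x, hx, hx'⟩ := hdense.inter_open_nonempty _ isOpen_interior hK.interior_nonempty
  rw [Set.mem_iUnion] at hx'
  obtain ⟨o, ho⟩ := hx'
  cases o with
  | none => exact absurd hx (interior_subset ho)
  | some γ =>
    refine ⟨(γ : (Fin r → ℝ) ≃ₗ[ℝ] (Fin r → ℝ)) x, ?_⟩
    have hopen : IsOpen {y | ((γ : (Fin r → ℝ) ≃ₗ[ℝ] (Fin r → ℝ))).symm y ∈
        interior (F (some γ)) ∩ interior (K : Set (Fin r → ℝ))} :=
      (isOpen_interior.inter isOpen_interior).preimage (continuous_equiv _)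
    refine interior_maximal ?_ hopen (by simpa using ⟨ho, hx⟩)
    rintro y ⟨h1, h2⟩
    have h3 := interior_subset h1
    have h4 : (γ : (Fin r → ℝ) ≃ₗ[ℝ] (Fin r → ℝ)) (((γ : (Fin r → ℝ) ≃ₗ[ℝ] (Fin r → ℝ))).symm y) ∈
        interior (K : Set (Fin r → ℝ)) := (hΓ γ γ.2).map_interior h2
    rw [LinearEquiv.apply_symm_apply] at h4
    refine ⟨hrat y h4, fun δ hδ => ?_⟩
    have h5 := h3.2 ⟨δ, hδ⟩
    rwa [LinearEquiv.apply_symm_apply] at h5

/-- The Dirichlet domain is rational polyhedral. -/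
theorem dirichlet_fg (hK : IsNefCone K) (hΓ : ∀ γ ∈ Γ, Preserves K γ) (hξ : IsPos K ξ)
    (hst : ∀ γ ∈ Γ, (∀ x, ξ (γ x) = ξ x) → γ = 1) (s : Finset (Fin r → ℝ))
    (hs : ∀ v ∈ s, v ∈ K ∧ IsInt v)
    (hcov : ∀ x ∈ interior (K : Set (Fin r → ℝ)), ∃ γ ∈ Γ,
      ∃ y ∈ span NNReal (s : Set (Fin r → ℝ)), x = γ y) :
    ∃ T : Finset (Fin r → ℝ), (∀ v ∈ T, IsInt v) ∧
      span NNReal (T : Set (Fin r → ℝ)) = dirichlet K Γ ξ ∧
      (∀ v ∈ T, ∃ γ ∈ Γ, ∃ y ∈ span NNReal (s : Set (Fin r → ℝ)), v = γ y) ∧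
      (interior (dirichlet K Γ ξ : Set (Fin r → ℝ))).Nonempty := by
  classical
  have hrat : ∀ x ∈ interior (K : Set (Fin r → ℝ)), x ∈ ratCone K := by
    intro x hx
    obtain ⟨γ, hγ, y, hy, rfl⟩ := hcov x hx
    exact (hΓ γ hγ).map_ratCone (span_le_ratCone hs hy)
  have hint := dirichlet_interior (Γ := Γ) hK hΓ hξ hrat
  obtain ⟨E, hE, hE'⟩ := dickson hξ hΓ s hs
  have hfun : ∀ γ ∈ Γ, IntFun (ξ ∘ₗ (γ : (Fin r → ℝ) →ₗ[ℝ] (Fin r → ℝ))) := by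
    intro γ hγ x hx
    exact hξ.1 _ ((hΓ γ hγ).1 x hx)
  have hpiece : ∀ γ, ∃ t : Finset (Fin r → ℝ), γ ∈ E → (∀ v ∈ t, IsInt v) ∧
      ∀ x, x ∈ span NNReal (t : Set (Fin r → ℝ)) ↔
        x ∈ span NNReal (s : Set (Fin r → ℝ)) ∧ ∀ δ ∈ E, ξ (γ x) ≤ ξ (δ x) := by
    intro γ
    by_cases hγ : γ ∈ E
    · obtain ⟨t, h1, h2⟩ := halfspaces E (fun δ : (Fin r → ℝ) ≃ₗ[ℝ] (Fin r → ℝ) =>
        ξ ∘ₗ (δ : (Fin r → ℝ) →ₗ[ℝ] (Fin r → ℝ)) - ξ ∘ₗ (γ : (Fin r → ℝ) →ₗ[ℝ] (Fin r → ℝ)))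
        (fun δ hδ => (hfun δ (hE δ hδ)).sub (hfun γ (hE γ hγ))) s (fun v hv => (hs v hv).2)
      refine ⟨t, fun _ => ⟨h1, fun x => ?_⟩⟩
      rw [h2]
      simp only [LinearMap.sub_apply, LinearMap.comp_apply, LinearEquiv.coe_coe, sub_nonneg]
    · exact ⟨∅, fun h => absurd h hγ⟩
  choose t ht using hpiece
  set T : Finset (Fin r → ℝ) := E.biUnion fun γ => (t γ).image γ with hT
  have hTmem : ∀ v ∈ T, ∃ γ ∈ E, ∃ w ∈ t γ, v = γ w := by
    intro v hv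
    rw [hT, Finset.mem_biUnion] at hv
    obtain ⟨γ, hγ, hv⟩ := hv
    obtain ⟨w, hw, rfl⟩ := Finset.mem_image.1 hv
    exact ⟨γ, hγ, w, hw, rfl⟩
  have hws : ∀ γ ∈ E, ∀ w ∈ t γ, w ∈ span NNReal (s : Set (Fin r → ℝ)) ∧
      ∀ δ ∈ E, ξ (γ w) ≤ ξ (δ w) := fun γ hγ w hw =>
    ((ht γ hγ).2 w).1 (subset_span hw)
  have hTi : ∀ v ∈ T, IsInt v := by
    intro v hv
    obtain ⟨γ, hγ, w, hw, rfl⟩ := hTmem v hv
    exact (hΓ γ (hE γ hγ)).1 w ((ht γ hγ).1 w hw)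
  have hTd : ∀ v ∈ T, v ∈ dirichlet K Γ ξ := by
    intro v hv
    obtain ⟨γ, hγ, w, hw, rfl⟩ := hTmem v hv
    obtain ⟨h1, h2⟩ := hws γ hγ w hw
    refine ⟨(hΓ γ (hE γ hγ)).map_ratCone (span_le_ratCone hs h1), fun δ hδ => ?_⟩
    obtain ⟨ε, hε, hε'⟩ := hE' (δ * γ) (Γ.mul_mem hδ (hE γ hγ))
    exact (h2 ε hε).trans (le_of_span hε' h1)
  have hle : span NNReal (T : Set (Fin r → ℝ)) ≤ dirichlet K Γ ξ := span_le.2 hTd
  have hTK : ∀ v ∈ T, v ∈ K := fun v hv => ratCone_le K (hTd v hv).1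
  -- interior points
  have hin : ∀ x ∈ interior (dirichlet K Γ ξ : Set (Fin r → ℝ)),
      x ∈ span NNReal (T : Set (Fin r → ℝ)) := by
    intro x hx
    have hxK : x ∈ interior (K : Set (Fin r → ℝ)) := by
      refine interior_mono ?_ hx
      exact fun y hy => ratCone_le K hy.1
    obtain ⟨γ, hγ, y, hy, rfl⟩ := hcov x hxK
    obtain ⟨ε₀, hε₀, -⟩ := hE' 1 Γ.one_mem
    obtain ⟨ε, hε, hmin⟩ := E.exists_min_image (fun ε => ξ (ε y)) ⟨ε₀, hε₀⟩
    have h1 : ∀ δ ∈ Γ, ξ (ε y) ≤ ξ (δ y) := by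
      intro δ hδ
      obtain ⟨ζ, hζ, hζ'⟩ := hE' δ hδ
      exact (hmin ζ hζ).trans (le_of_span hζ' hy)
    have h2 : ε * γ⁻¹ ∈ Γ := Γ.mul_mem (hE ε hε) (Γ.inv_mem hγ)
    have h3 : (ε * γ⁻¹) (γ y) = ε y := by
      rw [LinearEquiv.mul_apply]
      congr 1
      exact γ.symm_apply_apply y
    have h4 : ξ (γ y) ≤ ξ ((ε * γ⁻¹) (γ y)) := (interior_subset hx).2 _ h2
    have h5 : ξ ((ε * γ⁻¹) (γ y)) = ξ (γ y) := by
      refine le_antisymm ?_ h4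
      rw [h3]
      exact h1 γ hγ
    have h6 := eq_one_of_mem hst h2 hx h5
    have h7 : ε = γ := by rwa [mul_inv_eq_one] at h6
    have h8 : y ∈ span NNReal (t ε : Set (Fin r → ℝ)) := ((ht ε hε).2 y).2 ⟨hy, hmin⟩
    rw [← h7]
    refine map_mem_span (ε : (Fin r → ℝ) →ₗ[ℝ] (Fin r → ℝ)) (fun w hw => ?_) h8
    refine subset_span ?_
    rw [hT]
    exact Finset.mem_coe.2 (Finset.mem_biUnion.2 ⟨ε, hε, Finset.mem_image_of_mem _ hw⟩)
  -- closure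
  have hclosed : IsClosed (span NNReal (T : Set (Fin r → ℝ)) : Set (Fin r → ℝ)) :=
    isClosed_span T ξ fun v hv hv0 => hξ.2 v (hTK v hv) hv0
  have hge : dirichlet K Γ ξ ≤ span NNReal (T : Set (Fin r → ℝ)) := by
    intro x hx
    obtain ⟨u, hu⟩ := hint
    have h1 : ∀ n : ℕ, x + ((n : ℝ) + 1)⁻¹ • u ∈
        (span NNReal (T : Set (Fin r → ℝ)) : Set (Fin r → ℝ)) := by
      intro n
      apply hin
      rw [add_comm]
      exact add_mem_interior _ (smul_mem_interior _ hu (by positivity)) hx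
    have h2 : Filter.Tendsto (fun n : ℕ => x + ((n : ℝ) + 1)⁻¹ • u) Filter.atTop (nhds x) := by
      have h3 : Filter.Tendsto (fun n : ℕ => ((n : ℝ) + 1)⁻¹) Filter.atTop (nhds 0) := by
        have := tendsto_one_div_add_atTop_nhds_zero_nat (𝕜 := ℝ)
        simpa [one_div] using this
      have h4 := (h3.smul_const u).const_add x
      simpa using h4
    exact hclosed.mem_of_tendsto h2 (Filter.Eventually.of_forall h1)
  refine ⟨T, hTi, le_antisymm hle hge, ?_, hint⟩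
  intro v hv
  obtain ⟨γ, hγ, w, hw, rfl⟩ := hTmem v hv
  exact ⟨γ, hE γ hγ, w, (hws γ hγ w hw).1, rfl⟩

/-- The set of the elements of the group which fix an ample class in the Dirichlet domain is
finite (a form of the Siegel property). -/
theorem finite_fix (hK : IsNefCone K) (hΓ : ∀ γ ∈ Γ, Preserves K γ) (hξ : IsPos K ξ)
    (T : Finset (Fin r → ℝ)) (hTi : ∀ v ∈ T, IsInt v)
    (hT : span NNReal (T : Set (Fin r → ℝ)) = dirichlet K Γ ξ) :
    {γ | γ ∈ Γ ∧ ∃ x ∈ interior (K : Set (Fin r → ℝ)), x ∈ dirichlet K Γ ξ ∧ γ x = x}.Finite := by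
  classical
  have hTd : ∀ v ∈ T, v ∈ dirichlet K Γ ξ := fun v hv => by
    rw [← hT]
    exact subset_span hv
  have h1 : ∀ I ∈ T.powerset, {γ | γ ∈ Γ ∧ ∑ v ∈ I, v ∈ interior (K : Set (Fin r → ℝ)) ∧
      ξ (γ (∑ v ∈ I, v)) ≤ ξ (∑ v ∈ I, v)}.Finite := by
    intro I hI
    rw [Finset.mem_powerset] at hI
    by_cases h : ∑ v ∈ I, v ∈ interior (K : Set (Fin r → ℝ))
    · refine (finite_stab hK hξ.2 h (IsInt.sum I fun v hv => hTi v (hI hv))
        (ξ (∑ v ∈ I, v))).subset ?_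
      rintro γ ⟨h2, -, h3⟩
      exact ⟨hΓ γ h2, h3⟩
    · refine Set.Finite.subset Set.finite_empty ?_
      rintro γ ⟨-, h2, -⟩
      exact absurd h2 h
  refine (Set.Finite.biUnion T.powerset.finite_toSet h1).subset ?_
  rintro γ ⟨hγ, x, hxK, hxd, hγx⟩
  rw [← hT] at hxd
  obtain ⟨c, hc, rfl⟩ := (mem_span_iff T x).1 hxd
  set I := T.filter (fun v => 0 < c v) with hI
  have hIT : I ⊆ T := Finset.filter_subset _ _
  have hsum : ∑ v ∈ T, c v • v = ∑ v ∈ I, c v • v := by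
    rw [hI, Finset.sum_filter]
    refine Finset.sum_congr rfl fun v hv => ?_
    split_ifs with h
    · rfl
    · rw [le_antisymm (not_lt.1 h) (hc v hv), zero_smul]
  rw [hsum] at hxK hγx
  refine Set.mem_biUnion (Finset.mem_coe.2 (Finset.mem_powerset.2 hIT)) ⟨hγ, ?_, ?_⟩
  · -- the sum of the generators is ample
    set C : ℝ := ∑ v ∈ I, c v + 1 with hC
    have hCpos : 0 < C := by
      have : 0 ≤ ∑ v ∈ I, c v := Finset.sum_nonneg fun v hv => hc v (hIT hv)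
      linarith
    have h2 : ∑ v ∈ I, (C - c v) • v ∈ K := by
      refine sum_mem fun v hv => real_smul_mem K (ratCone_le K (hTd v (hIT hv)).1) ?_
      have : c v ≤ ∑ v ∈ I, c v :=
        Finset.single_le_sum (f := c) (fun w hw => hc w (hIT hw)) hv
      linarith
    have h3 := add_mem_interior K hxK h2
    have h4 : ∑ v ∈ I, c v • v + ∑ v ∈ I, (C - c v) • v = C • ∑ v ∈ I, v := by
      rw [← Finset.sum_add_distrib, Finset.smul_sum]
      refine Finset.sum_congr rfl fun v _ => ?_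
      rw [← add_smul, add_sub_cancel]
    rw [h4] at h3
    have h5 := smul_mem_interior K h3 (inv_pos.2 hCpos)
    rwa [smul_smul, inv_mul_cancel₀ hCpos.ne', one_smul] at h5
  · -- the degrees of the generators are preserved
    have h2 : ∑ v ∈ I, c v * (ξ (γ v) - ξ v) = 0 := by
      have h3 : ξ (γ (∑ v ∈ I, c v • v)) = ξ (∑ v ∈ I, c v • v) := by rw [hγx]
      rw [map_sum, map_sum, map_sum] at h3
      simp only [map_smul, smul_eq_mul] at h3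
      simp only [mul_sub, Finset.sum_sub_distrib]
      rw [h3, sub_self]
    have h3 : ∀ v ∈ I, 0 ≤ c v * (ξ (γ v) - ξ v) := by
      intro v hv
      refine mul_nonneg (hc v (hIT hv)) (sub_nonneg.2 ((hTd v (hIT hv)).2 γ hγ))
    have h4 := (Finset.sum_eq_zero_iff_of_nonneg h3).1 h2
    rw [map_sum, map_sum, map_sum]
    refine le_of_eq (Finset.sum_congr rfl fun v hv => ?_)
    have h5 : 0 < c v := (Finset.mem_filter.1 hv).2
    have h6 := (mul_eq_zero.1 (h4 v hv)).resolve_left h5.ne'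
    linarith

end Pool.Agent.Helper13KM
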