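import Pool.Agent.Helper13KM.Defs
import Pool.Agent.Helper13KM.Looijenga

/-!
# The cone conjecture and finite étale Galois coverings
-/

set_option autoImplicit false

open Submodule

namespace Pool.Agent.Helper13KM

/-- A convex cone as a submodule. -/
def toSub {r : ℕ} {S : Set (Fin r → ℝ)} (h : IsConvexCone S) : Submodule NNReal (Fin r → ℝ) where
  carrier := S
  zero_mem' := h.1
  add_mem' := fun {x y} hx hy => h.2.1 x hx y hy
  smul_mem' := fun a x hx => h.2.2 a a.2 x hx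

lemma mem_toSub {r : ℕ} {S : Set (Fin r → ℝ)} (h : IsConvexCone S) {x : Fin r → ℝ} :
    x ∈ toSub h ↔ x ∈ S := Iff.rfl

lemma coe_toSub {r : ℕ} {S : Set (Fin r → ℝ)} (h : IsConvexCone S) :
    (toSub h : Set (Fin r → ℝ)) = S := rfl

lemma genCone_eq {r : ℕ} (s : Finset (Fin r → ℝ)) :
    genCone s = (span NNReal (s : Set (Fin r → ℝ)) : Set (Fin r → ℝ)) := by
  ext x
  rw [SetLike.mem_coe, mem_span_iff]
  rfl

variable {Y : LDatum}

/-- The nef cone. -/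
def LIsVariety.K (hY : LIsVariety Y) : Submodule NNReal (Fin Y.rho → ℝ) := toSub hY.nef_cone

/-- The cone of effective classes. -/
def LIsVariety.Ef (hY : LIsVariety Y) : Submodule NNReal (Fin Y.rho → ℝ) := toSub hY.eff_cone

lemma LIsVariety.isNefCone (hY : LIsVariety Y) : IsNefCone hY.K :=
  ⟨hY.nef_closed, hY.ample, hY.degree⟩

lemma LIsVariety.preserves (hY : LIsVariety Y) :
    ∀ γ ∈ (Y.act).range, Preserves hY.K γ := by
  rintro _ ⟨φ, rfl⟩
  exact ⟨hY.act_int φ, hY.act_nef φ⟩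

/-- The strong form of the cone conjecture with the Dirichlet domain of `ξ`. -/
structure Strong (hY : LIsVariety Y) (ξ : (Fin Y.rho → ℝ) →ₗ[ℝ] ℝ) (T : Finset (Fin Y.rho → ℝ)) :
    Prop where
  pos : IsPos hY.K ξ
  stab : ∀ γ ∈ (Y.act).range, (∀ x, ξ (γ x) = ξ x) → γ = 1
  int : ∀ v ∈ T, IsInt v
  eff : ∀ v ∈ T, v ∈ Y.nef ∧ v ∈ Y.eff
  dir : span NNReal (T : Set (Fin Y.rho → ℝ)) = dirichlet hY.K (Y.act).range ξ
  rat : ∀ x ∈ Y.nef, x ∈ Y.eff → x ∈ ratCone hY.K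

/-- The strong form implies the cone conjecture. -/
lemma Strong.coneConjecture {hY : LIsVariety Y} {ξ : (Fin Y.rho → ℝ) →ₗ[ℝ] ℝ}
    {T : Finset (Fin Y.rho → ℝ)} (h : Strong hY ξ T) : LConeConjecture Y := by
  have hP : genCone T = (dirichlet hY.K (Y.act).range ξ : Set (Fin Y.rho → ℝ)) := by
    rw [genCone_eq, h.dir]
  refine ⟨genCone T, ⟨T, h.int, rfl⟩, ?_, ?_⟩
  · ext x
    rw [Set.mem_iUnion]
    constructor
    · rintro ⟨h1, h2⟩
      obtain ⟨_, ⟨φ, rfl⟩, h3⟩ := dirichlet_cover h.pos hY.preserves (h.rat x h1 h2)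
      refine ⟨φ⁻¹, Y.act φ x, ?_, ?_⟩
      · rw [hP]
        exact h3
      · rw [map_inv]
        exact (Y.act φ).symm_apply_apply x
    · rintro ⟨φ, y, hy, rfl⟩
      rw [genCone_eq] at hy
      have h1 : y ∈ hY.K := (span_le.2 fun v hv => (h.eff v hv).1 :
        span NNReal (T : Set (Fin Y.rho → ℝ)) ≤ hY.K) hy
      have h2 : y ∈ hY.Ef := (span_le.2 fun v hv => (h.eff v hv).2 :
        span NNReal (T : Set (Fin Y.rho → ℝ)) ≤ hY.Ef) hy
      exact ⟨hY.act_nef φ y h1, hY.act_eff φ y h2⟩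
  · rintro φ ⟨y, hy, x, hx, rfl⟩
    rw [hP] at hx hy
    have hx1 := interior_subset hx
    have hy1 := interior_subset hy
    refine eq_one_of_mem h.stab ⟨φ, rfl⟩ hx (le_antisymm ?_ (hx1.2 _ ⟨φ, rfl⟩))
    have h1 := hy1.2 (Y.act φ)⁻¹ ⟨φ⁻¹, by rw [map_inv]⟩
    have h2 : (Y.act φ)⁻¹ (Y.act φ x) = x := (Y.act φ).symm_apply_apply x
    rwa [h2] at h1

/-- The weak form implies the strong form (Looijenga). -/
lemma exists_strong (hY : LIsVariety Y) (s : Finset (Fin Y.rho → ℝ)) (hsi : ∀ v ∈ s, IsInt v)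
    (hs : ∀ v ∈ s, v ∈ Y.nef ∧ v ∈ Y.eff)
    (hcov : ∀ x ∈ interior Y.nef, ∃ φ : Y.Aut, ∃ y ∈ span NNReal (s : Set (Fin Y.rho → ℝ)),
      x = Y.act φ y)
    (hrat : ∀ x ∈ Y.nef, x ∈ Y.eff → x ∈ ratCone hY.K) : ∃ ξ T, Strong hY ξ T := by
  obtain ⟨ξ, hξ, hst⟩ := exists_xi hY.isNefCone (Y.act).range hY.preserves
  obtain ⟨T, h1, h2, h3, -⟩ := dirichlet_fg hY.isNefCone hY.preserves hξ hst s
    (fun v hv => ⟨(hs v hv).1, hsi v hv⟩) (by
      intro x hx
      obtain ⟨φ, y, hy, hxy⟩ := hcov x hx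
      exact ⟨Y.act φ, ⟨φ, rfl⟩, y, hy, hxy⟩)
  refine ⟨ξ, T, ⟨hξ, hst, h1, ?_, h2, hrat⟩⟩
  intro v hv
  obtain ⟨_, ⟨φ, rfl⟩, y, hy, rfl⟩ := h3 v hv
  have h4 : y ∈ hY.K := (span_le.2 fun v hv => (hs v hv).1 :
    span NNReal (s : Set (Fin Y.rho → ℝ)) ≤ hY.K) hy
  have h5 : y ∈ hY.Ef := (span_le.2 fun v hv => (hs v hv).2 :
    span NNReal (s : Set (Fin Y.rho → ℝ)) ≤ hY.Ef) hy
  exact ⟨hY.act_nef φ y h4, hY.act_eff φ y h5⟩

/-- The cone conjecture implies the strong form. -/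
lemma strong_of_coneConjecture (hY : LIsVariety Y) (h : LConeConjecture Y) :
    ∃ ξ T, Strong hY ξ T := by
  obtain ⟨P, ⟨s, hsi, rfl⟩, hP, -⟩ := h
  rw [genCone_eq] at hP
  have hs : ∀ v ∈ s, v ∈ Y.nef ∧ v ∈ Y.eff := by
    intro v hv
    have h1 : v ∈ ⋃ φ : Y.Aut, Y.act φ '' (span NNReal (s : Set (Fin Y.rho → ℝ)) : Set _) := by
      rw [Set.mem_iUnion]
      refine ⟨1, v, subset_span hv, ?_⟩
      rw [map_one]
      rfl
    rw [← hP] at h1
    exact h1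
  have hcov : ∀ x ∈ Y.nef, x ∈ Y.eff → ∃ φ : Y.Aut,
      ∃ y ∈ span NNReal (s : Set (Fin Y.rho → ℝ)), x = Y.act φ y := by
    intro x h1 h2
    have h3 : x ∈ Y.nef ∩ Y.eff := ⟨h1, h2⟩
    rw [hP, Set.mem_iUnion] at h3
    obtain ⟨φ, y, hy, hxy⟩ := h3
    exact ⟨φ, y, hy, hxy.symm⟩
  refine exists_strong hY s hsi hs ?_ ?_
  · exact fun x hx => hcov x (interior_subset hx) (hY.ample_eff hx)
  · intro x h1 h2
    obtain ⟨φ, y, hy, rfl⟩ := hcov x h1 h2
    exact (hY.preserves _ ⟨φ, rfl⟩).map_ratCone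
      (span_le_ratCone (fun v hv => ⟨(hs v hv).1, hsi v hv⟩) hy)

section cover

variable {Y' : LDatum} {G : Subgroup Y'.Aut} {p : (Fin Y.rho → ℝ) →ₗ[ℝ] (Fin Y'.rho → ℝ)}

/-- Lifting finite sums: if the generators of a cone can be lifted, so can its elements. -/
lemma lift_span {S : Set (Fin Y'.rho → ℝ)} {C : Submodule NNReal (Fin Y.rho → ℝ)}
    (L : (Fin Y'.rho → ℝ) →ₗ[ℝ] (Fin Y'.rho → ℝ)) (h : ∀ v ∈ S, ∃ w ∈ C, p w = L v)
    {x : Fin Y'.rho → ℝ} (hx : x ∈ span NNReal S) : ∃ w ∈ C, p w = L x := by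
  refine span_induction (p := fun x _ => ∃ w ∈ C, p w = L x) h ?_ ?_ ?_ hx
  · exact ⟨0, zero_mem _, by rw [map_zero, map_zero]⟩
  · rintro x y - - ⟨w, hw, hw'⟩ ⟨z, hz, hz'⟩
    exact ⟨w + z, add_mem hw hz, by rw [map_add, map_add, hw', hz']⟩
  · rintro a x - ⟨w, hw, hw'⟩
    refine ⟨a • w, smul_mem _ a hw, ?_⟩
    rw [NNReal.smul_def, NNReal.smul_def, map_smul, map_smul, hw']

/-- Descent of the cone conjecture to the quotient. -/
theorem coneConjecture_descent (hY' : LIsVariety Y') (hY : LIsVariety Y)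
    (hq : LIsGaloisCover Y' Y G p) (h : LConeConjecture Y') : LConeConjecture Y := by
  classical
  have hG := hq.finite
  have := Fintype.ofFinite G
  obtain ⟨ξ, T, hS⟩ := strong_of_coneConjecture hY' h
  -- the sum over `G`
  set L : (Fin Y'.rho → ℝ) →ₗ[ℝ] (Fin Y'.rho → ℝ) :=
    ∑ g : G, (Y'.act g : (Fin Y'.rho → ℝ) →ₗ[ℝ] (Fin Y'.rho → ℝ)) with hL
  have hLa : ∀ x, L x = ∑ g : G, Y'.act g x := by
    intro x
    rw [hL, LinearMap.sum_apply]
    rfl
  have hnorm : ∀ z, IsInt z → ∃ u, IsInt u ∧ p u = L z := by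
    intro z hz
    obtain ⟨u, hu, hu'⟩ := hq.norm z hz
    refine ⟨u, hu, ?_⟩
    rw [hu', hLa, finsum_eq_sum_of_fintype]
  set n : ℝ := (Fintype.card G : ℝ) with hn
  have hn0 : 0 < n := by
    rw [hn]
    exact_mod_cast Fintype.card_pos
  have hLp : ∀ x, L (p x) = n • p x := by
    intro x
    have h1 : ∀ g ∈ (Finset.univ : Finset G), Y'.act (g : Y'.Aut) (p x) = p x :=
      fun g _ => hq.invariant g g.2 x
    rw [hLa, Finset.sum_congr rfl h1, Finset.sum_const, Finset.card_univ,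
      ← Nat.cast_smul_eq_nsmul ℝ]
  have hLnef : ∀ x ∈ Y'.nef, L x ∈ Y'.nef := by
    intro x hx
    rw [hLa]
    exact (hY'.K).sum_mem fun g _ => hY'.act_nef g x hx
  have hLeff : ∀ x ∈ Y'.eff, L x ∈ Y'.eff := by
    intro x hx
    rw [hLa]
    exact (hY'.Ef).sum_mem fun g _ => hY'.act_eff g x hx
  -- the rational classes
  have hrat : ∀ x ∈ Y.nef, x ∈ Y.eff → x ∈ ratCone hY.K := by
    intro x h1 h2
    have h3 : p x ∈ ratCone hY'.K := hS.rat _ ((hq.nef x).2 h1) ((hq.eff x).2 h2)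
    obtain ⟨w, hw, hw'⟩ := lift_span (p := p) (C := ratCone hY.K) L (by
      rintro z ⟨hz, hzi⟩
      obtain ⟨u, hu, hu'⟩ := hnorm z hzi
      refine ⟨u, subset_span ⟨?_, hu⟩, hu'⟩
      show u ∈ Y.nef
      rw [← hq.nef, hu']
      exact hLnef z hz) h3
    rw [hLp, ← map_smul] at hw'
    have h4 := hq.injective hw'
    have h5 : n⁻¹ • w ∈ ratCone hY.K := real_smul_mem _ hw (inv_nonneg.2 hn0.le)
    rwa [h4, smul_smul, inv_mul_cancel₀ hn0.ne', one_smul] at h5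
  -- the pull-back of an ample class is ample
  have hample : ∀ x ∈ interior Y.nef, p x ∈ interior Y'.nef := by
    intro x hx
    obtain ⟨v, hv, hvi⟩ := exists_int_interior hY'.isNefCone
    obtain ⟨u, -, hu'⟩ := hnorm v hvi
    have hpu : p u ∈ interior Y'.nef := by
      rw [hu', hLa, ← Finset.add_sum_erase _ _ (Finset.mem_univ (1 : G))]
      refine add_mem_interior hY'.K ?_ ?_
      · exact (hY'.preserves _ ⟨_, rfl⟩).map_interior hv
      · exact sum_mem fun g _ => hY'.act_nef g v (interior_subset hv)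
    obtain ⟨ε, hε, hε'⟩ : ∃ ε : ℝ, 0 < ε ∧ x - ε • u ∈ Y.nef := by
      obtain ⟨δ, hδ, hball⟩ := Metric.isOpen_iff.1 isOpen_interior x hx
      refine ⟨δ / (2 * (‖u‖ + 1)), by positivity, interior_subset (hball ?_)⟩
      have h0 : 0 ≤ ‖u‖ := norm_nonneg u
      rw [Metric.mem_ball, dist_eq_norm, sub_sub_cancel_left, norm_neg, norm_smul,
        Real.norm_of_nonneg (by positivity), div_mul_eq_mul_div, div_lt_iff₀ (by positivity)]
      nlinarith
    have h1 : ε • p u ∈ interior Y'.nef := smul_mem_interior hY'.K hpu hε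
    have h2 : p (x - ε • u) ∈ Y'.nef := (hq.nef _).2 hε'
    have h3 := add_mem_interior hY'.K h1 h2
    rwa [← map_smul, ← map_add, add_sub_cancel] at h3
  -- the finitely many translates
  obtain ⟨A, hA, hAact, R, hR, hker⟩ := hY'.kernel
  obtain ⟨Φ, hΦ⟩ := finite_classes Y'.act hA hAact hR hker G
    (finite_fix hY'.isNefCone hY'.preserves hS.pos T hS.int hS.dir)
  have hlift : ∀ ψ : Y'.Aut, ∀ v : Fin Y'.rho → ℝ, ∃ u, v ∈ T → IsInt u ∧ p u = L (Y'.act ψ v) := by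
    intro ψ v
    by_cases hv : v ∈ T
    · obtain ⟨u, hu, hu'⟩ := hnorm _ (hY'.act_int ψ v (hS.int v hv))
      exact ⟨u, fun _ => ⟨hu, hu'⟩⟩
    · exact ⟨0, fun h => absurd h hv⟩
  choose u hu using hlift
  set s : Finset (Fin Y.rho → ℝ) := (Φ ×ˢ T).image fun q => u q.1 q.2 with hs
  have hsmem : ∀ w ∈ s, ∃ ψ ∈ Φ, ∃ v ∈ T, w = u ψ v := by
    intro w hw
    obtain ⟨⟨ψ, v⟩, h1, rfl⟩ := Finset.mem_image.1 hw
    rw [Finset.mem_product] at h1
    exact ⟨ψ, h1.1, v, h1.2, rfl⟩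
  obtain ⟨ξ', T', hS'⟩ := exists_strong hY s (by
      intro w hw
      obtain ⟨ψ, -, v, hv, rfl⟩ := hsmem w hw
      exact (hu ψ v hv).1) (by
      intro w hw
      obtain ⟨ψ, -, v, hv, rfl⟩ := hsmem w hw
      rw [← hq.nef, ← hq.eff, (hu ψ v hv).2]
      exact ⟨hLnef _ (hY'.act_nef ψ v (hS.eff v hv).1),
        hLeff _ (hY'.act_eff ψ v (hS.eff v hv).2)⟩) (by
      intro x hx
      have hpx := hample x hx
      have hpr : p x ∈ ratCone hY'.K :=
        hS.rat _ (interior_subset hpx) (hY'.ample_eff hpx)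
      obtain ⟨_, ⟨φ₀, rfl⟩, hd⟩ := dirichlet_cover hS.pos hY'.preserves hpr
      set y := Y'.act φ₀ (p x) with hy
      have hyK : y ∈ interior Y'.nef := (hY'.preserves _ ⟨φ₀, rfl⟩).map_interior hpx
      have hyx : Y'.act φ₀⁻¹ y = p x := by
        rw [hy, map_inv]
        exact (Y'.act φ₀).symm_apply_apply (p x)
      obtain ⟨ψ, hψ, z, hz, hzψ⟩ := hΦ φ₀⁻¹ (by
        intro g hg
        refine ⟨⟨_, rfl⟩, y, hyK, hd, ?_⟩
        rw [map_mul, map_mul, inv_inv, LinearEquiv.mul_apply, LinearEquiv.mul_apply, hyx,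
          hq.invariant g hg])
      have hpx' : p x = Y'.act z (Y'.act ψ y) := by
        rw [← hyx, hzψ, LinearEquiv.mul_apply]
      have hyT : y ∈ span NNReal (T : Set (Fin Y'.rho → ℝ)) := by
        rw [hS.dir]
        exact hd
      obtain ⟨w, hw, hw'⟩ := lift_span (p := p)
        (C := span NNReal (s : Set (Fin Y.rho → ℝ)))
        (L ∘ₗ (Y'.act ψ : (Fin Y'.rho → ℝ) →ₗ[ℝ] (Fin Y'.rho → ℝ))) (by
          intro v hv
          refine ⟨u ψ v, subset_span ?_, (hu ψ v hv).2⟩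
          exact Finset.mem_coe.2 (Finset.mem_image.2 ⟨(ψ, v), Finset.mem_product.2 ⟨hψ, hv⟩, rfl⟩))
        hyT
      have hw'' : p w = L (Y'.act ψ y) := hw'
      obtain ⟨ζ, hζ⟩ := hq.descend z fun g hg => hz g hg
      have hcomm : ∀ y', L (Y'.act z y') = Y'.act z (L y') := by
        intro y'
        rw [hLa, hLa, map_sum]
        refine Finset.sum_congr rfl fun g _ => ?_
        rw [← LinearEquiv.mul_apply, ← LinearEquiv.mul_apply, ← map_mul, ← map_mul, hz g g.2]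
      have hfin : p (n • x) = p (Y.act ζ w) := by
        rw [hζ, hw'', ← hcomm, ← hpx', hLp, map_smul]
      have hfin' := hq.injective hfin
      refine ⟨ζ, n⁻¹ • w, smul_mem_span (inv_nonneg.2 hn0.le) hw, ?_⟩
      rw [map_smul, ← hfin', smul_smul, inv_mul_cancel₀ hn0.ne', one_smul]) hrat
  exact hS'.coneConjecture

end cover

end Pool.Agent.Helper13KM
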