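import Pool.Agent.Helper13KM.Cone
import Pool.Agent.Helper13KM.Group

/-!
# The cone conjecture: statements
-/

set_option autoImplicit false

namespace Pool.Agent.Helper13KM

/-- `P` is a rational polyhedral cone: the set of the nonnegative linear combinations of finitely many
integral vectors. -/
def IsRatPolyhedral {r : ℕ} (P : Set (Fin r → ℝ)) : Prop :=
  ∃ s : Finset (Fin r → ℝ), (∀ v ∈ s, IsInt v) ∧
    P = {x | ∃ c : (Fin r → ℝ) → ℝ, (∀ v ∈ s, 0 ≤ c v) ∧ x = ∑ v ∈ s, c v • v}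

/-- `f` is a linear map. -/
def IsLin {r s : ℕ} (f : (Fin r → ℝ) → (Fin s → ℝ)) : Prop :=
  (∀ x y, f (x + y) = f x + f y) ∧ ∀ (c : ℝ) x, f (c • x) = c • f x

/-- The numerical data of a smooth projective variety `Y`: the Picard number `rho`, so that
`N^1(Y) = ℝ^rho`, where the classes of the divisors are the integral vectors; the nef cone; the cone of
the classes of effective divisors; the group `Aut(Y)` and its action `act φ = (φ⁻¹)^*` on `N^1(Y)`. -/
structure Datum where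
  rho : ℕ
  nef : Set (Fin rho → ℝ)
  eff : Set (Fin rho → ℝ)
  Aut : Type
  [group : Group Aut]
  act : Aut → (Fin rho → ℝ) → (Fin rho → ℝ)

attribute [instance] Datum.group

/-- The Kawamata-Morrison cone conjecture for `Y`: there is a rational polyhedral cone `P` such that
the effective nef cone is the union of the translates of `P` by `Aut(Y)`, and the interiors of `P` and
of a translate `φ^* P` are disjoint unless `φ^*` is the identity. -/
def ConeConjecture (Y : Datum) : Prop :=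
  ∃ P : Set (Fin Y.rho → ℝ), IsRatPolyhedral P ∧ Y.nef ∩ Y.eff = ⋃ φ : Y.Aut, Y.act φ '' P ∧
    ∀ φ : Y.Aut, (interior P ∩ Y.act φ '' interior P).Nonempty → Y.act φ = id

/-- `Aut(Y)` acts on `N^1(Y)` by linear maps which preserve the classes of the divisors, the nef cone and
the cone of effective classes. -/
structure IsAction (Y : Datum) : Prop where
  lin : ∀ φ, IsLin (Y.act φ)
  one : Y.act 1 = id
  mul : ∀ φ ψ, Y.act (φ * ψ) = Y.act φ ∘ Y.act ψ
  int : ∀ φ x, IsInt x → IsInt (Y.act φ x)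
  nef : ∀ φ, ∀ x ∈ Y.nef, Y.act φ x ∈ Y.nef
  eff : ∀ φ, ∀ x ∈ Y.eff, Y.act φ x ∈ Y.eff

/-- There is an integral linear form, the intersection number with `H^{n-1}` for an ample class `H`,
which is positive on the nef classes different from zero. -/
def HasDegree (Y : Datum) : Prop :=
  ∃ ξ : Fin Y.rho → ℤ, ∀ x ∈ Y.nef, x ≠ 0 → 0 < ∑ i, ξ i * x i

/-- The kernel of the action on `N^1(Y)` contains the neutral component `A` of the automorphism group,
which is an abelian variety for `K_Y ≡ 0`, as a subgroup of finite index. -/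
def HasTorusKernel (Y : Datum) : Prop :=
  ∃ A : Subgroup Y.Aut, IsTorusLike A ∧ (∀ a ∈ A, Y.act a = id) ∧
    ∃ R : Set Y.Aut, R.Finite ∧ ∀ φ, Y.act φ = id → ∃ a ∈ A, ∃ b ∈ R, φ = a * b

/-- The known properties of the data of a smooth projective variety `Y` with `K_Y ≡ 0`. The interior of
the nef cone is the ample cone. -/
structure IsVariety (Y : Datum) : Prop where
  nef_cone : IsConvexCone Y.nef
  nef_closed : IsClosed Y.nef
  eff_cone : IsConvexCone Y.eff
  ample : (interior Y.nef).Nonempty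
  ample_eff : interior Y.nef ⊆ Y.eff
  degree : HasDegree Y
  action : IsAction Y
  kernel : HasTorusKernel Y

/-- The known properties of a finite étale Galois covering `π : Y' → Y` with the group `G ⊆ Aut(Y')`,
with `p = π^*`:

* `norm`: `π^* π_* z = ∑ g^* z`;
* `nef`, `eff`: a class is nef (effective) if and only if its pull-back is nef (effective);
* `descend`: an automorphism of `Y'` which commutes with `G` descends to `Y`. -/
structure IsGaloisCover (Y' Y : Datum) (G : Subgroup Y'.Aut)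
    (p : (Fin Y.rho → ℝ) → (Fin Y'.rho → ℝ)) : Prop where
  finite : Finite G
  lin : IsLin p
  injective : Function.Injective p
  invariant : ∀ g ∈ G, ∀ x, Y'.act g (p x) = p x
  norm : ∀ z, IsInt z → ∃ u, IsInt u ∧ p u = ∑ᶠ g : G, Y'.act g z
  nef : ∀ x, p x ∈ Y'.nef ↔ x ∈ Y.nef
  eff : ∀ x, p x ∈ Y'.eff ↔ x ∈ Y.eff
  descend : ∀ φ : Y'.Aut, (∀ g ∈ G, φ * g = g * φ) →
    ∃ ψ : Y.Aut, ∀ x, p (Y.act ψ x) = Y'.act φ (p x)

/-- The known properties of a product `X = X₁ × X₂` of two smooth projective varieties such that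
`N^1(X) = N^1(X₁) ⊕ N^1(X₂)`, for example if `H^1(X₂, ℚ) = 0`; `i₁`, `i₂` are the pull-backs. -/
structure IsProduct (X X₁ X₂ : Datum) (i₁ : (Fin X₁.rho → ℝ) → (Fin X.rho → ℝ))
    (i₂ : (Fin X₂.rho → ℝ) → (Fin X.rho → ℝ)) : Prop where
  lin₁ : IsLin i₁
  lin₂ : IsLin i₂
  int₁ : ∀ x, IsInt x → IsInt (i₁ x)
  int₂ : ∀ x, IsInt x → IsInt (i₂ x)
  sum : ∀ z, ∃ x₁ x₂, z = i₁ x₁ + i₂ x₂
  nef : ∀ x₁ x₂, i₁ x₁ + i₂ x₂ ∈ X.nef ↔ x₁ ∈ X₁.nef ∧ x₂ ∈ X₂.nef
  eff : ∀ x₁ x₂, i₁ x₁ + i₂ x₂ ∈ X.eff ↔ x₁ ∈ X₁.eff ∧ x₂ ∈ X₂.eff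
  act : ∀ (φ₁ : X₁.Aut) (φ₂ : X₂.Aut), ∃ φ : X.Aut, ∀ x₁ x₂,
    X.act φ (i₁ x₁ + i₂ x₂) = i₁ (X₁.act φ₁ x₁) + i₂ (X₂.act φ₂ x₂)

end Pool.Agent.Helper13KM
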