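import Pool.Agent.Helper13KM.Func

/-!
# A positive linear form with trivial stabiliser
-/

set_option autoImplicit false

open Submodule

namespace Pool.Agent.Helper13KM

variable {r : ℕ}

/-- The linear form with the coefficients `q`. -/
noncomputable def form (q : Fin r → ℚ) : (Fin r → ℝ) →ₗ[ℝ] ℝ :=
  ∑ i, (q i : ℝ) • (LinearMap.proj i : (Fin r → ℝ) →ₗ[ℝ] ℝ)

lemma form_apply (q : Fin r → ℚ) (x : Fin r → ℝ) : form q x = ∑ i, (q i : ℝ) * x i := by
  simp [form]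

/-- The stabiliser condition as a subspace. -/
noncomputable def stabSpace (γ : (Fin r → ℝ) ≃ₗ[ℝ] (Fin r → ℝ)) : Submodule ℚ (Fin r → ℚ) where
  carrier := {q | ∀ x, form q (γ x) = form q x}
  zero_mem' := by
    intro x
    simp [form_apply]
  add_mem' := by
    intro p q hp hq x
    have h1 := hp x
    have h2 := hq x
    simp only [form_apply, Pi.add_apply, Rat.cast_add, add_mul, Finset.sum_add_distrib] at h1 h2 ⊢
    rw [h1, h2]
  smul_mem' := by
    intro c q hq x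
    have h1 := hq x
    simp only [form_apply, Pi.smul_apply, smul_eq_mul, Rat.cast_mul, mul_assoc,
      ← Finset.mul_sum] at h1 ⊢
    rw [h1]

lemma stabSpace_ne_top {γ : (Fin r → ℝ) ≃ₗ[ℝ] (Fin r → ℝ)} (hγ : γ ≠ 1) : stabSpace γ ≠ ⊤ := by
  intro htop
  apply hγ
  ext x i
  have h1 : (Pi.single i 1 : Fin r → ℚ) ∈ stabSpace γ := by rw [htop]; exact mem_top
  have h2 := h1 x
  have h3 : ∀ y : Fin r → ℝ, form (Pi.single i 1 : Fin r → ℚ) y = y i := by
    intro y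
    rw [form_apply, Finset.sum_eq_single i]
    · simp
    · intro j _ hj
      rw [Pi.single_eq_of_ne hj]
      simp
    · intro h
      exact absurd (Finset.mem_univ i) h
  rw [h3, h3] at h2
  simpa using h2

lemma exists_generic (F : Finset ((Fin r → ℝ) ≃ₗ[ℝ] (Fin r → ℝ))) (hF : ∀ γ ∈ F, γ ≠ 1) :
    ∃ η : (Fin r → ℝ) →ₗ[ℝ] ℝ, IntFun η ∧ ∀ γ ∈ F, ∃ x, η (γ x) ≠ η x := by
  classical
  have h1 : (⊤ : Submodule ℚ (Fin r → ℚ)) ∉ F.image stabSpace := by
    intro h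
    obtain ⟨γ, h2, h3⟩ := Finset.mem_image.1 h
    exact stabSpace_ne_top (hF γ h2) h3
  have h2 := Subspace.biUnion_ne_univ_of_top_notMem h1
  obtain ⟨q, hq⟩ := (Set.ne_univ_iff_exists_notMem _).1 h2
  have hq' : ∀ γ ∈ F, q ∉ stabSpace γ := by
    intro γ hγ h3
    apply hq
    exact Set.mem_biUnion (Finset.mem_coe.2 (Finset.mem_image_of_mem _ hγ)) h3
  set D : ℕ := ∏ i, (q i).den with hD
  have hDpos : 0 < D := Finset.prod_pos fun i _ => (q i).pos
  refine ⟨(D : ℝ) • form q, ?_, ?_⟩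
  · intro x hx
    choose m hm using hx
    have h3 : ∀ i, ∃ e : ℕ, D = (q i).den * e := fun i =>
      Finset.dvd_prod_of_mem _ (Finset.mem_univ i)
    choose e he using h3
    refine ⟨∑ i, e i * (q i).num * m i, ?_⟩
    rw [LinearMap.smul_apply, form_apply, smul_eq_mul, Finset.mul_sum]
    push_cast
    refine Finset.sum_congr rfl fun i _ => ?_
    have h4 : (q i : ℝ) * ((q i).den : ℝ) = (q i).num := by
      exact_mod_cast Rat.mul_den_eq_num (q i)
    rw [he i, hm i, ← h4]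
    push_cast
    ring
  · intro γ hγ
    by_contra hcon
    push Not at hcon
    apply hq' γ hγ
    intro x
    have h3 := hcon x
    rw [LinearMap.smul_apply, LinearMap.smul_apply] at h3
    exact smul_right_injective _ (by exact_mod_cast hDpos.ne' : (D : ℝ) ≠ 0) h3

variable {K : Submodule NNReal (Fin r → ℝ)}

/-- There is a positive integral linear form with trivial stabiliser. -/
lemma exists_xi (hK : IsNefCone K) (Γ : Subgroup ((Fin r → ℝ) ≃ₗ[ℝ] (Fin r → ℝ)))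
    (hΓ : ∀ γ ∈ Γ, Preserves K γ) :
    ∃ ξ : (Fin r → ℝ) →ₗ[ℝ] ℝ, IsPos K ξ ∧ ∀ γ ∈ Γ, (∀ x, ξ (γ x) = ξ x) → γ = 1 := by
  classical
  obtain ⟨ξ, hξi, hξ⟩ := hK.pos
  obtain ⟨ε, hε, hbd⟩ := exists_bound hK hξ
  obtain ⟨v, hv, hvi⟩ := exists_int_interior hK
  have hfin : {γ | Preserves K γ ∧ ξ (γ v) ≤ 4 * ξ v}.Finite := finite_stab hK hξ hv hvi _
  set F : Finset ((Fin r → ℝ) ≃ₗ[ℝ] (Fin r → ℝ)) := hfin.toFinset.erase 1 with hF
  obtain ⟨η, hηi, hη⟩ := exists_generic F fun γ hγ => (Finset.mem_erase.1 hγ).1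
  -- a bound for `η`
  have hηc : Continuous η := LinearMap.continuous_of_finiteDimensional η
  obtain ⟨C, hC0, hC⟩ : ∃ C : ℝ, 0 ≤ C ∧ ∀ x, |η x| ≤ C * ‖x‖ := by
    set L : (Fin r → ℝ) →L[ℝ] ℝ := ⟨η, hηc⟩ with hL
    exact ⟨‖L‖, norm_nonneg L, fun x => L.le_opNorm x⟩
  -- the bad values of `N`
  have hbad : ∀ γ ∈ F, ∃ N₀ : ℕ, ∀ N : ℕ, N₀ < N → ∃ x, ((N : ℝ) • ξ + η) (γ x) ≠
      ((N : ℝ) • ξ + η) x := by
    intro γ hγ
    obtain ⟨x, hx⟩ := hη γ hγ
    by_contra hcon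
    push Not at hcon
    obtain ⟨N1, h1, h1'⟩ := hcon 0
    obtain ⟨N2, h2, h2'⟩ := hcon N1
    have h3 := h1' x
    have h4 := h2' x
    simp only [LinearMap.add_apply, LinearMap.smul_apply, smul_eq_mul] at h3 h4
    have h5 : ((N2 : ℝ) - N1) * (ξ (γ x) - ξ x) = 0 := by linarith
    have h6 : (N2 : ℝ) - N1 ≠ 0 := by
      have : (N1 : ℝ) < N2 := by exact_mod_cast h2
      exact (sub_pos.2 this).ne'
    have h7 : ξ (γ x) - ξ x = 0 := (mul_eq_zero.1 h5).resolve_left h6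
    apply hx
    have h8 : (N1 : ℝ) * (ξ (γ x) - ξ x) = 0 := by rw [h7, mul_zero]
    linarith
  choose! N₀ hN₀ using hbad
  obtain ⟨N1, hN1⟩ := exists_nat_gt (2 * C / ε)
  set N : ℕ := N1 + 1 + ∑ γ ∈ F, N₀ γ with hN
  have hNγ : ∀ γ ∈ F, N₀ γ < N := by
    intro γ hγ
    have : N₀ γ ≤ ∑ γ ∈ F, N₀ γ := Finset.single_le_sum (fun _ _ => Nat.zero_le _) hγ
    omega
  have hNC : 2 * C / ε < N := by
    have : (N1 : ℝ) ≤ N := by
      have : N1 ≤ N := by omega
      exact_mod_cast this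
    linarith
  have hN0 : (0 : ℝ) < N := by
    have : 0 < N := by omega
    exact_mod_cast this
  set ξ' : (Fin r → ℝ) →ₗ[ℝ] ℝ := (N : ℝ) • ξ + η with hξ'
  have hnn : ∀ x ∈ K, 0 ≤ ξ x := by
    intro x hx
    rcases eq_or_ne x 0 with h | h
    · rw [h, map_zero]
    · exact (hξ x hx h).le
  have hηb : ∀ x ∈ K, |η x| ≤ N / 2 * ξ x := by
    intro x hx
    rw [div_lt_iff₀ hε] at hNC
    calc |η x| ≤ C * ‖x‖ := hC x
      _ ≤ (N * ε / 2) * ‖x‖ := by
        gcongr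
        linarith
      _ = N / 2 * (ε * ‖x‖) := by ring
      _ ≤ N / 2 * ξ x := by
        gcongr
        exact hbd x hx
  have hlow : ∀ x ∈ K, N / 2 * ξ x ≤ ξ' x := by
    intro x hx
    have := (abs_le.1 (hηb x hx)).1
    simp only [hξ', LinearMap.add_apply, LinearMap.smul_apply, smul_eq_mul]
    linarith
  have hupp : ∀ x ∈ K, ξ' x ≤ 2 * N * ξ x := by
    intro x hx
    have h1 := (abs_le.1 (hηb x hx)).2
    have h2 := mul_nonneg hN0.le (hnn x hx)
    simp only [hξ', LinearMap.add_apply, LinearMap.smul_apply, smul_eq_mul]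
    linarith
  refine ⟨ξ', ⟨?_, ?_⟩, ?_⟩
  · intro x hx
    obtain ⟨a, ha⟩ := hξi x hx
    obtain ⟨b, hb⟩ := hηi x hx
    exact ⟨N * a + b, by simp [hξ', ha, hb]⟩
  · intro x hx hx0
    have h1 := hξ x hx hx0
    have h2 := hlow x hx
    have h3 : 0 < N / 2 * ξ x := by positivity
    linarith
  · intro γ hγ hstab
    by_contra hne
    have hγF : γ ∈ F := by
      rw [hF, Finset.mem_erase, Set.Finite.mem_toFinset]
      refine ⟨hne, hΓ γ hγ, ?_⟩
      have h1 := hlow (γ v) ((hΓ γ hγ).2 v (interior_subset hv))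
      have h2 := hupp v (interior_subset hv)
      rw [hstab v] at h1
      have h3 : N / 2 * ξ (γ v) ≤ 2 * N * ξ v := h1.trans h2
      have h4 : (N : ℝ) / 2 * ξ (γ v) ≤ N / 2 * (4 * ξ v) := by linarith
      exact le_of_mul_le_mul_left h4 (by positivity)
    obtain ⟨x, hx⟩ := hN₀ γ hγF N (hNγ γ hγF)
    exact hx (hstab x)

end Pool.Agent.Helper13KM
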